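import Mathlib

set_option autoImplicit false

/-!
Chebyshev type polynomials `G` and the polynomial form of the sums
`∑ (-1)^k C(n+k,2k) T_{2k}(b,c)`.
-/

namespace Pool.Agent.K3h4.B6

open Finset

section ring

variable {R : Type*} [CommRing R]

/-- `G_0 = 0`, `G_1 = 1`, `G_{m+2} = q G_{m+1} - w G_m` -/
def G (q w : R) : ℕ → R
  | 0 => 0
  | 1 => 1
  | (m + 2) => q * G q w (m + 1) - w * G q w m

theorem G_closed (q w : R) (n : ℕ) :
    G q w (2 * n + 1) = ∑ k ∈ range (n + 1), (-1) ^ (n - k) * ((n + k).choose (2 * k) : R) *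
      q ^ (2 * k) * w ^ (n - k) ∧
    G q w (2 * n + 2) = ∑ k ∈ range (n + 1), (-1) ^ (n - k) * ((n + k + 1).choose (2 * k + 1) : R) *
      q ^ (2 * k + 1) * w ^ (n - k) := by
  induction n with
  | zero => simp [G]
  | succ n ih =>
    obtain ⟨h1, h2⟩ := ih
    have h3 : G q w (2 * (n + 1) + 1) = ∑ k ∈ range (n + 1 + 1), (-1) ^ (n + 1 - k) *
        ((n + 1 + k).choose (2 * k) : R) * q ^ (2 * k) * w ^ (n + 1 - k) := by
      have e : G q w (2 * (n + 1) + 1) = q * G q w (2 * n + 2) - w * G q w (2 * n + 1) := rfl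
      rw [e, h1, h2, sum_range_succ' _ (n + 1)]
      have e1 : ∀ k ∈ range (n + 1), (-1 : R) ^ (n + 1 - (k + 1)) * ((n + 1 + (k + 1)).choose (2 * (k + 1)) : R) *
          q ^ (2 * (k + 1)) * w ^ (n + 1 - (k + 1)) =
          q * ((-1) ^ (n - k) * ((n + k + 1).choose (2 * k + 1) : R) * q ^ (2 * k + 1) * w ^ (n - k)) +
          (-1) ^ (n - k) * ((n + k + 1).choose (2 * k + 2) : R) * q ^ (2 * k + 2) * w ^ (n - k) := by
        intro k _
        rw [show n + 1 + (k + 1) = (n + k + 1) + 1 by ring, show 2 * (k + 1) = (2 * k + 1) + 1 by ring,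
          Nat.choose_succ_succ, show n + 1 - (k + 1) = n - k by omega]
        push_cast
        ring
      rw [sum_congr rfl e1, sum_add_distrib, ← mul_sum]
      have e2 : w * ∑ k ∈ range (n + 1), (-1 : R) ^ (n - k) * ((n + k).choose (2 * k) : R) *
          q ^ (2 * k) * w ^ (n - k) = (-1) ^ n * w ^ (n + 1) -
          ∑ k ∈ range (n + 1), (-1) ^ (n - k) * ((n + k + 1).choose (2 * k + 2) : R) * q ^ (2 * k + 2) *
            w ^ (n - k) := by
        rw [sum_range_succ', sum_range_succ _ n, show n + n + 1 = 2 * n + 1 by ring,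
          Nat.choose_eq_zero_of_lt (show 2 * n + 1 < 2 * n + 2 by omega), mul_add, mul_sum]
        have e3 : ∀ k ∈ range n, w * ((-1 : R) ^ (n - (k + 1)) * ((n + (k + 1)).choose (2 * (k + 1)) : R) *
            q ^ (2 * (k + 1)) * w ^ (n - (k + 1))) =
            -((-1) ^ (n - k) * ((n + k + 1).choose (2 * k + 2) : R) * q ^ (2 * k + 2) * w ^ (n - k)) := by
          intro k hk
          have hk' := mem_range.1 hk
          obtain ⟨i, hi⟩ : ∃ i, n = k + 1 + i := ⟨n - (k + 1), by omega⟩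
          rw [show n - (k + 1) = i by omega, show n - k = i + 1 by omega,
            show n + (k + 1) = n + k + 1 by ring, show 2 * (k + 1) = 2 * k + 2 by ring]
          ring
        rw [sum_congr rfl e3, sum_neg_distrib]
        simp
        ring
      rw [e2]
      simp
      ring
    refine ⟨h3, ?_⟩
    have e : G q w (2 * (n + 1) + 2) = q * G q w (2 * (n + 1) + 1) - w * G q w (2 * n + 2) := rfl
    rw [e, h3, h2, mul_sum, mul_sum, sum_range_succ _ (n + 1), sum_range_succ _ (n + 1), add_sub_right_comm,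
      ← sum_sub_distrib]
    congr 1
    · refine sum_congr rfl fun k hk => ?_
      have hk' := mem_range.1 hk
      obtain ⟨i, hi⟩ : ∃ i, n = k + i := ⟨n - k, by omega⟩
      rw [show n + 1 - k = i + 1 by omega, show n - k = i by omega,
        show n + 1 + k + 1 = (n + k + 1) + 1 by ring, show n + 1 + k = n + k + 1 by ring,
        Nat.choose_succ_succ (n + k + 1) (2 * k)]
      push_cast
      ring
    · rw [Nat.sub_self, show n + 1 + (n + 1) = 2 * (n + 1) by ring, Nat.choose_self, Nat.choose_self]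
      push_cast
      ring

theorem G_hom {S : Type*} [CommRing S] (f : R →+* S) (q w : R) (m : ℕ) :
    f (G q w m) = G (f q) (f w) m := by
  induction m using Nat.strong_induction_on with
  | _ m ih =>
    rcases m with _ | _ | m
    · simp [G]
    · simp [G]
    · rw [G, G, map_sub, map_mul, map_mul, ih _ (by omega), ih _ (by omega)]

/-- `G_m(a+b, ab) (a - b) = a^m - b^m` -/
theorem G_binet (a b : R) (m : ℕ) : G (a + b) (a * b) m * (a - b) = a ^ m - b ^ m := by
  induction m using Nat.strong_induction_on with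
  | _ m ih =>
    rcases m with _ | _ | m
    · simp [G]
    · simp [G]
    · have h1 := ih (m + 1) (by omega)
      have h2 := ih m (by omega)
      rw [G]
      linear_combination (a + b) * h1 - a * b * h2

end ring

/-- `T_n(b,c)`, the coefficient of `t^n` in `(t^2+bt+c)^n` -/
def T (b c : ℤ) (n : ℕ) : ℤ :=
  ∑ j ∈ range (n / 2 + 1), (n.choose (2 * j) : ℤ) * ((2 * j).choose j : ℤ) * b ^ (n - 2 * j) * c ^ j

open Polynomial in
/-- coefficients of `(X^2+c)^m` -/
theorem coeff_sq (c : ℤ) (m : ℕ) : (((X : ℤ[X]) ^ 2 + C c) ^ m).coeff m =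
    if m % 2 = 0 then (m.choose (m / 2) : ℤ) * c ^ (m / 2) else 0 := by
  rw [add_pow, finset_sum_coeff]
  have h : ∀ i ∈ range (m + 1), (((X : ℤ[X]) ^ 2) ^ i * C c ^ (m - i) * (m.choose i : ℤ[X])).coeff m =
      if 2 * i = m then (m.choose i : ℤ) * c ^ (m - i) else 0 := by
    intro i _
    have e : ((X : ℤ[X]) ^ 2) ^ i * C c ^ (m - i) * (m.choose i : ℤ[X]) =
        C ((m.choose i : ℤ) * c ^ (m - i)) * X ^ (2 * i) := by
      rw [← pow_mul, C_mul, C_pow]
      simp only [eq_intCast, Int.cast_natCast]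
      ring
    rw [e, coeff_C_mul_X_pow]
    split_ifs with h1 h2 h2
    · rfl
    · exact absurd h1.symm h2
    · exact absurd h2.symm h1
    · rfl
  rw [sum_congr rfl h]
  split_ifs with hm
  · rw [sum_eq_single (m / 2)]
    · rw [if_pos (by omega), show m - m / 2 = m / 2 by omega]
    · intro i _ hi
      rw [if_neg (by omega)]
    · intro h0
      exact absurd (mem_range.2 (by omega)) h0
  · exact sum_eq_zero fun i _ => if_neg (by omega)

/-- sum over the even numbers -/
theorem sum_even (f : ℕ → ℤ) (n : ℕ) (h : ∀ m, m % 2 = 1 → f m = 0) :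
    ∑ m ∈ range (n + 1), f m = ∑ j ∈ range (n / 2 + 1), f (2 * j) := by
  induction n with
  | zero => simp
  | succ n ih =>
    rw [sum_range_succ, ih]
    rcases Nat.mod_two_eq_zero_or_one n with h0 | h0
    · rw [h (n + 1) (by omega), add_zero, show (n + 1) / 2 = n / 2 by omega]
    · rw [show (n + 1) / 2 = n / 2 + 1 by omega, sum_range_succ _ (n / 2 + 1), show 2 * (n / 2 + 1) = n + 1 by omega]

open Polynomial in
theorem T_coeff (b c : ℤ) (n : ℕ) : T b c n = (((X : ℤ[X]) ^ 2 + C b * X + C c) ^ n).coeff n := by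
  have e : (X : ℤ[X]) ^ 2 + C b * X + C c = (X ^ 2 + C c) + C b * X := by ring
  rw [e, add_pow, finset_sum_coeff]
  have h : ∀ m ∈ range (n + 1), (((X : ℤ[X]) ^ 2 + C c) ^ m * (C b * X) ^ (n - m) *
      (n.choose m : ℤ[X])).coeff n =
      if m % 2 = 0 then (n.choose m : ℤ) * (m.choose (m / 2) : ℤ) * b ^ (n - m) * c ^ (m / 2) else 0 := by
    intro m hm
    have hm' := mem_range.1 hm
    have e : ((X : ℤ[X]) ^ 2 + C c) ^ m * (C b * X) ^ (n - m) * (n.choose m : ℤ[X]) =
        C ((n.choose m : ℤ) * b ^ (n - m)) * ((X ^ 2 + C c) ^ m * X ^ (n - m)) := by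
      rw [mul_pow, C_mul, C_pow]
      simp only [eq_intCast, Int.cast_natCast]
      ring
    rw [e, coeff_C_mul]
    have h2 := coeff_mul_X_pow (((X : ℤ[X]) ^ 2 + C c) ^ m) (n - m) m
    rw [show m + (n - m) = n by omega] at h2
    rw [h2, coeff_sq]
    split_ifs
    · ring
    · ring
  rw [sum_congr rfl h, sum_even _ _ (fun m hm => if_neg (by omega)), T]
  refine sum_congr rfl fun j _ => ?_
  rw [if_pos (by omega), show 2 * j / 2 = j by omega]

open Polynomial in
/-- the polynomial `G_m(t)` for `q = t^2 + bt + c`, `w = t^2` -/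
noncomputable def GP (b c : ℤ) (m : ℕ) : ℤ[X] := G (X ^ 2 + C b * X + C c) (X ^ 2) m

open Polynomial in
theorem GP_coeff (b c : ℤ) (n : ℕ) : (GP b c (2 * n + 1)).coeff (2 * n) =
    ∑ k ∈ range (n + 1), (-1) ^ (n - k) * ((n + k).choose (2 * k) : ℤ) * T b c (2 * k) := by
  rw [GP, (G_closed _ _ n).1, finset_sum_coeff]
  refine sum_congr rfl fun k hk => ?_
  have hk' := mem_range.1 hk
  have e : (-1 : ℤ[X]) ^ (n - k) * ((n + k).choose (2 * k) : ℤ[X]) * (X ^ 2 + C b * X + C c) ^ (2 * k) *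
      (X ^ 2) ^ (n - k) = C ((-1) ^ (n - k) * ((n + k).choose (2 * k) : ℤ)) *
      ((X ^ 2 + C b * X + C c) ^ (2 * k) * X ^ (2 * (n - k))) := by
    rw [← pow_mul, C_mul, C_pow, C_neg, C_1]
    simp only [eq_intCast, Int.cast_natCast]
    ring
  rw [e, coeff_C_mul]
  have h2 := coeff_mul_X_pow (((X : ℤ[X]) ^ 2 + C b * X + C c) ^ (2 * k)) (2 * (n - k)) (2 * k)
  rw [show 2 * k + 2 * (n - k) = 2 * n by omega] at h2
  rw [h2, ← T_coeff]

end Pool.Agent.K3h4.B6
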