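import Mathlib
import Pool.Agent.K3h4.B6.Cheb

set_option autoImplicit false

/-!
Coefficients of polynomials as residues, and the coefficient of `G_m`.
-/

namespace Pool.Agent.K3h4.B6

open Finset PowerSeries

/-- derivative of power series -/
noncomputable abbrev D (f : ℚ⟦X⟧) : ℚ⟦X⟧ := PowerSeries.derivative ℚ f

theorem D_mul (f g : ℚ⟦X⟧) : D (f * g) = f * D g + g * D f := by
  simp [D, Derivation.leibniz, smul_eq_mul]

theorem D_inv {v w : ℚ⟦X⟧} (h : v * w = 1) : D w = -(w ^ 2 * D v) := by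
  have h1 : D (v * w) = 0 := by rw [h]; simp [D]
  rw [D_mul] at h1
  linear_combination w * h1 - D w * h

theorem D_pow (f : ℚ⟦X⟧) (n : ℕ) : D (f ^ (n + 1)) = ((n : ℚ⟦X⟧) + 1) * f ^ n * D f := by
  induction n with
  | zero => simp
  | succ n ih =>
    rw [pow_succ, D_mul, ih]
    push_cast
    ring

theorem coeff_nat_mul (n m : ℕ) (f : ℚ⟦X⟧) : coeff m ((n : ℚ⟦X⟧) * f) = n * coeff m f := by
  rw [show ((n : ℕ) : ℚ⟦X⟧) = PowerSeries.C (n : ℚ) by simp, coeff_C_mul]

/-- the basic residue -/
theorem res {v w : ℚ⟦X⟧} (h : v * w = 1) (k : ℕ) :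
    coeff k (w ^ (k + 1) * (v + X * D v)) = if k = 0 then 1 else 0 := by
  have e : w ^ (k + 1) * (v + X * D v) = w ^ k * (v * w) + X * (w ^ (k + 1) * D v) := by ring
  rw [e, h, mul_one]
  rcases k with _ | k
  · simp
  · rw [if_neg (by omega), map_add, coeff_succ_X_mul]
    have h1 : coeff k (D (w ^ (k + 1))) = coeff (k + 1) (w ^ (k + 1)) * (k + 1) := by
      rw [D, coeff_derivative]
    have h2 : D (w ^ (k + 1)) = -(((k + 1 : ℕ) : ℚ⟦X⟧) * (w ^ (k + 1 + 1) * D v)) := by
      rw [D_pow, D_inv h]; push_cast; ring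
    rw [h2, map_neg, coeff_nat_mul] at h1
    have hk : ((k : ℚ) + 1) ≠ 0 := by positivity
    apply mul_left_cancel₀ hk
    push_cast at h1
    linear_combination -h1

/-- coefficients of a polynomial as residues -/
theorem coeff_res {v w : ℚ⟦X⟧} (h : v * w = 1) (g : Polynomial ℚ) (m : ℕ) :
    coeff m (w ^ (m + 1) * (v + X * D v) * Polynomial.aeval (X * v) g) = g.coeff m := by
  induction g using Polynomial.induction_on' with
  | add f g hf hg => rw [map_add, mul_add, map_add, hf, hg, Polynomial.coeff_add]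
  | monomial i a =>
    rw [Polynomial.aeval_monomial, Polynomial.coeff_monomial]
    have e : w ^ (m + 1) * (v + X * D v) * ((algebraMap ℚ ℚ⟦X⟧) a * (X * v) ^ i) =
        PowerSeries.C a * (X ^ i * (w ^ (m + 1) * v ^ i * (v + X * D v))) := by
      rw [mul_pow]
      simp only [PowerSeries.algebraMap_apply, Algebra.algebraMap_self, RingHom.id_apply]
      ring
    rw [e, coeff_C_mul, coeff_X_pow_mul']
    split_ifs with h1 h2 h2
    · subst h2
      have h3 : w ^ (i + 1) * v ^ i * (v + X * D v) = w ^ (0 + 1) * (v + X * D v) := by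
        have : w ^ (i + 1) * v ^ i = (v * w) ^ i * w := by ring
        rw [this, h]; ring
      rw [h3, Nat.sub_self, res h 0]; simp
    · obtain ⟨k, hk⟩ : ∃ k, m = i + k := ⟨m - i, by omega⟩
      subst hk
      have h3 : w ^ (i + k + 1) * v ^ i * (v + X * D v) = w ^ (k + 1) * (v + X * D v) := by
        have : w ^ (i + k + 1) * v ^ i = (v * w) ^ i * w ^ (k + 1) := by ring
        rw [this, h]; ring
      rw [h3, show i + k - i = k by omega, res h k, if_neg (by omega), mul_zero]
    · omega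
    · simp

/-- the coefficient of `G_m` through the solution `V` -/
theorem A_eq {v w V V' s : ℚ⟦X⟧} {b c : ℤ} {e : ℚ} (hvw : v * w = 1) (hV : V * V' = X ^ 2)
    (hsum : V + V' = X ^ 2 * v + PowerSeries.C (b : ℚ) * X + PowerSeries.C (c : ℚ) * w)
    (hE : v + X * D v = PowerSeries.C e * s * v * (V - V')) (h0 : constantCoeff V' = 0) (m : ℕ) :
    (((GP b c (m + 1)).coeff m : ℤ) : ℚ) = e * coeff m (s * V ^ (m + 1)) := by
  have h1 := coeff_res hvw ((GP b c (m + 1)).map (Int.castRingHom ℚ)) m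
  rw [Polynomial.coeff_map] at h1
  have h2 : Polynomial.aeval (X * v) ((GP b c (m + 1)).map (Int.castRingHom ℚ)) =
      G (v * V + v * V') (v * V * (v * V')) (m + 1) := by
    rw [GP]
    have a1 := G_hom (Polynomial.mapRingHom (Int.castRingHom ℚ)) (Polynomial.X ^ 2 +
      Polynomial.C b * Polynomial.X + Polynomial.C c) (Polynomial.X ^ 2) (m + 1)
    rw [Polynomial.coe_mapRingHom] at a1
    rw [a1]
    have a2 := G_hom (Polynomial.aeval (R := ℚ) (X * v : ℚ⟦X⟧)).toRingHom
      (Polynomial.map (Int.castRingHom ℚ) (Polynomial.X ^ 2 + Polynomial.C b * Polynomial.X + Polynomial.C c))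
      (Polynomial.map (Int.castRingHom ℚ) (Polynomial.X ^ 2)) (m + 1)
    simp only [AlgHom.toRingHom_eq_coe, RingHom.coe_coe] at a2
    rw [a2]
    congr 1
    · simp only [Polynomial.map_add, Polynomial.map_mul, Polynomial.map_pow, Polynomial.map_X,
        Polynomial.map_C, map_add, map_mul, map_pow, Polynomial.aeval_X, Polynomial.aeval_C,
        PowerSeries.algebraMap_apply, Algebra.algebraMap_self, RingHom.id_apply]
      have h3 : v * V + v * V' = v * (V + V') := by ring
      rw [h3, hsum]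
      simp only [map_intCast, Int.coe_castRingHom]
      linear_combination (-(c : ℚ⟦X⟧)) * hvw
    · simp only [Polynomial.map_pow, Polynomial.map_X, map_pow, Polynomial.aeval_X]
      linear_combination (-v ^ 2) * hV
  rw [h2] at h1
  have h3 := G_binet (v * V) (v * V') (m + 1)
  have h4 : w ^ (m + 1) * (v + X * D v) * G (v * V + v * V') (v * V * (v * V')) (m + 1) =
      PowerSeries.C e * (s * V ^ (m + 1)) - PowerSeries.C e * (s * V' ^ (m + 1)) := by
    rw [hE]
    have h5 : w ^ (m + 1) * (PowerSeries.C e * s * v * (V - V')) * G (v * V + v * V') (v * V * (v * V')) (m + 1) =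
        w ^ (m + 1) * PowerSeries.C e * s * (G (v * V + v * V') (v * V * (v * V')) (m + 1) * (v * V - v * V')) := by
      ring
    rw [h5, h3]
    have h6 : (v * w) ^ (m + 1) = 1 := by rw [hvw, one_pow]
    linear_combination (PowerSeries.C e * s * (V ^ (m + 1) - V' ^ (m + 1))) * h6
  rw [h4, map_sub, coeff_C_mul, coeff_C_mul] at h1
  have h7 : coeff m (s * V' ^ (m + 1)) = 0 := by
    have h8 : (X : ℚ⟦X⟧) ∣ V' := X_dvd_iff.2 h0
    obtain ⟨r, hr⟩ := h8
    have h9 : s * V' ^ (m + 1) = X ^ (m + 1) * (s * r ^ (m + 1)) := by rw [hr]; ring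
    rw [h9, coeff_X_pow_mul', if_neg (by omega)]
  rw [h7, mul_zero, sub_zero] at h1
  rw [h1]
  simp

end Pool.Agent.K3h4.B6
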