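import Mathlib
import Pool.Agent.K3h4.B6.Res

set_option autoImplicit false

/-!
The curve `y^2 = 1 + x^3` and the two functions with torsion divisor.
-/

namespace Pool.Agent.K3h4.B6

open Finset PowerSeries

theorem C_ofN (n : ℕ) [n.AtLeastTwo] : PowerSeries.C (OfNat.ofNat n : ℚ) = (OfNat.ofNat n : ℚ⟦X⟧) :=
  map_ofNat _ n

theorem C32 : PowerSeries.C (3 / 2 : ℚ) * 2 = 3 := by
  rw [← C_ofN 2, ← map_mul, show (3 / 2 : ℚ) * OfNat.ofNat 2 = OfNat.ofNat 3 by norm_num, C_ofN 3]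

/-- `C(-1/2,k)` -/
def cc : ℕ → ℚ
  | 0 => 1
  | (k + 1) => -(2 * (k : ℚ) + 1) / (2 * k + 2) * cc k

theorem cc_succ (k : ℕ) : 2 * ((k : ℚ) + 1) * cc (k + 1) = -(2 * k + 1) * cc k := by
  rw [cc]
  have : ((k : ℚ) + 1) ≠ 0 := by positivity
  field_simp

/-- the series `1/y` -/
noncomputable def sS : ℚ⟦X⟧ := PowerSeries.mk fun m => if m % 3 = 0 then cc (m / 3) else 0

/-- the series `1/(8-x^3)` -/
noncomputable def g8 : ℚ⟦X⟧ := PowerSeries.mk fun m => if m % 3 = 0 then (1 / 8) ^ (m / 3 + 1) else 0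

theorem coeff_sS (m : ℕ) : coeff m sS = if m % 3 = 0 then cc (m / 3) else 0 := by
  rw [sS, coeff_mk]

theorem coeff_g8 (m : ℕ) : coeff m g8 = if m % 3 = 0 then (1 / 8) ^ (m / 3 + 1) else 0 := by
  rw [g8, coeff_mk]

theorem g8_eq : (8 - X ^ 3) * g8 = 1 := by
  ext m
  have e : (8 - X ^ 3) * g8 = PowerSeries.C (8 : ℚ) * g8 - X ^ 3 * g8 := by
    rw [show (PowerSeries.C (8 : ℚ)) = 8 from map_ofNat _ 8]; ring
  rw [e, map_sub, coeff_C_mul, coeff_X_pow_mul', coeff_g8, coeff_one]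
  rcases lt_or_ge m 3 with h | h
  · interval_cases m <;> norm_num
  · obtain ⟨i, rfl⟩ : ∃ i, m = i + 3 := ⟨m - 3, by omega⟩
    rw [if_pos h, coeff_g8, show i + 3 - 3 = i by omega, show (i + 3) % 3 = i % 3 by omega,
      show (i + 3) / 3 = i / 3 + 1 by omega, if_neg (show ¬ (i + 3 = 0) by omega)]
    split_ifs
    · ring
    · ring

theorem sS_ode : (1 + X ^ 3) * D sS = -(PowerSeries.C (3 / 2 : ℚ) * X ^ 2 * sS) := by
  ext m
  have e : (1 + X ^ 3) * D sS = D sS + X ^ 3 * D sS := by ring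
  have e2 : PowerSeries.C (3 / 2 : ℚ) * X ^ 2 * sS = PowerSeries.C (3 / 2 : ℚ) * (X ^ 2 * sS) := by ring
  rw [e, e2, map_add, map_neg, coeff_C_mul, coeff_X_pow_mul', coeff_X_pow_mul', D, coeff_derivative, coeff_sS]
  rcases lt_or_ge m 3 with h | h
  · interval_cases m
    · norm_num
    · norm_num
    · norm_num [coeff_sS, cc]
  · obtain ⟨i, rfl⟩ : ∃ i, m = i + 3 := ⟨m - 3, by omega⟩
    rw [if_pos h, if_pos (show 2 ≤ i + 3 by omega), coeff_derivative, coeff_sS, coeff_sS,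
      show i + 3 - 3 = i by omega, show i + 3 - 2 = i + 1 by omega, show (i + 3 + 1) % 3 = (i + 1) % 3 by omega,
      show (i + 3 + 1) / 3 = (i + 1) / 3 + 1 by omega]
    split_ifs with h1
    · obtain ⟨k, hk⟩ : ∃ k, i + 1 = 3 * k := ⟨(i + 1) / 3, by omega⟩
      have hk' : (i : ℚ) = 3 * k - 1 := by
        have : ((i + 1 : ℕ) : ℚ) = ((3 * k : ℕ) : ℚ) := by rw [hk]
        push_cast at this
        linarith
      rw [show (i + 1) / 3 = k by omega]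
      have := cc_succ k
      push_cast
      rw [hk']
      linear_combination (3 / 2) * this
    · ring

theorem constantCoeff_sS : constantCoeff sS = 1 := by
  rw [← coeff_zero_eq_constantCoeff_apply, coeff_sS]; simp [cc]

theorem sS_sq : (1 + X ^ 3) * sS ^ 2 = 1 := by
  apply PowerSeries.derivative.ext
  · have h1 : D ((1 + X ^ 3) * sS ^ 2) = 0 := by
      have hX : D ((1 : ℚ⟦X⟧) + X ^ 3) = 3 * X ^ 2 := by
        rw [D, map_add, show (1 : ℚ⟦X⟧) = PowerSeries.C 1 by simp]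
        rw [PowerSeries.derivative_C, show (X : ℚ⟦X⟧) ^ 3 = X ^ (2 + 1) by norm_num]
        have := D_pow X 2
        rw [D] at this
        rw [this]
        simp [D]
        norm_num
      have hS : D (sS ^ 2) = 2 * sS * D sS := by
        have := D_pow sS 1
        rw [show 1 + 1 = 2 by norm_num] at this
        rw [this]; push_cast; ring
      rw [D_mul, hS, hX]
      have h := sS_ode
      have hC := C32
      linear_combination 2 * sS * h - (X ^ 2 * sS ^ 2) * hC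
    rw [D] at h1
    rw [h1]
    simp
  · simp [constantCoeff_sS]

/-- the series `y` -/
noncomputable def yS : ℚ⟦X⟧ := (1 + X ^ 3) * sS

theorem ys : yS * sS = 1 := by
  have := sS_sq
  rw [yS]; linear_combination this

theorem yy : yS ^ 2 = 1 + X ^ 3 := by
  have := sS_sq
  rw [yS]; linear_combination (1 + X ^ 3) * this

theorem D_X : D X = 1 := by simp [D]

theorem D_X2 : D (X ^ 2) = 2 * X := by
  have := D_pow X 1
  rw [show 1 + 1 = 2 by norm_num, D_X] at this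
  rw [this]; push_cast; ring

theorem D_X3 : D (X ^ 3) = 3 * X ^ 2 := by
  have := D_pow X 2
  rw [show 2 + 1 = 3 by norm_num, D_X] at this
  rw [this]; push_cast; ring

theorem D_X4 : D (X ^ 4) = 4 * X ^ 3 := by
  have := D_pow X 3
  rw [show 3 + 1 = 4 by norm_num, D_X] at this
  rw [this]; push_cast; ring

theorem D_add (f g : ℚ⟦X⟧) : D (f + g) = D f + D g := by simp [D]
theorem D_sub (f g : ℚ⟦X⟧) : D (f - g) = D f - D g := by simp [D]
theorem D_neg (f : ℚ⟦X⟧) : D (-f) = -D f := by simp [D]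
theorem D_C (a : ℚ) : D (PowerSeries.C a) = 0 := by simp [D]
theorem D_nat (n : ℕ) : D (n : ℚ⟦X⟧) = 0 := by
  rw [show ((n : ℕ) : ℚ⟦X⟧) = PowerSeries.C (n : ℚ) by simp, D_C]
theorem D_ofNat (n : ℕ) [n.AtLeastTwo] : D (OfNat.ofNat n : ℚ⟦X⟧) = 0 := by
  rw [show (OfNat.ofNat n : ℚ⟦X⟧) = PowerSeries.C (OfNat.ofNat n : ℚ) from (map_ofNat _ n).symm, D_C]
theorem D_one : D (1 : ℚ⟦X⟧) = 0 := by simp [D]

theorem D_y : D yS = PowerSeries.C (3 / 2 : ℚ) * X ^ 2 * sS := by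
  have h := sS_ode
  have hC := C32
  rw [yS, D_mul, D_add, D_X3, D_one]
  linear_combination h - (X ^ 2 * sS) * hC

theorem D_g8 : D g8 = 3 * X ^ 2 * g8 ^ 2 := by
  have h := D_inv g8_eq
  rw [D_sub, D_X3, D_ofNat] at h
  rw [h]; ring

/-- the series `1/(2-x)` -/
noncomputable def g2 : ℚ⟦X⟧ := (4 + 2 * X + X ^ 2) * g8

theorem g2_eq : (2 - X) * g2 = 1 := by
  have := g8_eq
  rw [g2]; linear_combination this

theorem D_g2 : D g2 = g2 ^ 2 := by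
  have h := D_inv g2_eq
  rw [D_sub, D_X, D_ofNat] at h
  rw [h]; ring

theorem C3 : PowerSeries.C (1 / 3 : ℚ) * 3 = 1 := by
  rw [show (3 : ℚ⟦X⟧) = PowerSeries.C 3 from (map_ofNat _ 3).symm, ← map_mul]
  norm_num

theorem C2 : PowerSeries.C (1 / 2 : ℚ) * 2 = 1 := by
  rw [show (2 : ℚ⟦X⟧) = PowerSeries.C 2 from (map_ofNat _ 2).symm, ← map_mul]
  norm_num

/-- `(b,c) = (2,3)` -/
noncomputable def V1 : ℚ⟦X⟧ := (2 + X ^ 2 + 2 * yS) * g2

theorem constantCoeff_y : constantCoeff yS = 1 := by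
  rw [yS, map_mul, constantCoeff_sS]; simp

theorem constantCoeff_g8 : constantCoeff g8 = 1 / 8 := by
  rw [← coeff_zero_eq_constantCoeff_apply, coeff_g8]; norm_num

theorem constantCoeff_g2 : constantCoeff g2 = 1 / 2 := by
  rw [g2, map_mul, constantCoeff_g8]
  simp [map_ofNat]
  norm_num

theorem A1 (m : ℕ) : (((GP 2 3 (m + 1)).coeff m : ℤ) : ℚ) = 1 / 2 * coeff m (sS * V1 ^ (m + 1)) := by
  have h := g2_eq
  have h3 := C3
  have hyy := yy
  have hys := ys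
  refine A_eq (v := 3 * g2) (w := PowerSeries.C (1 / 3 : ℚ) * (2 - X)) (V := V1)
    (V' := (2 + X ^ 2 - 2 * yS) * g2) ?_ ?_ ?_ ?_ ?_ m
  · linear_combination h + (2 - X) * g2 * h3
  · rw [V1]
    linear_combination (-4 * g2 ^ 2) * hyy + X ^ 2 * ((2 - X) * g2 + 1) * h
  · have e2 : (PowerSeries.C (((2 : ℤ) : ℚ))) = (2 : ℚ⟦X⟧) := by push_cast; exact C_ofN 2
    have e3 : (PowerSeries.C (((3 : ℤ) : ℚ))) = (3 : ℚ⟦X⟧) := by push_cast; exact C_ofN 3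
    rw [V1, e2, e3]
    linear_combination (2 + X) * h - (2 - X) * h3
  · rw [D_mul, D_g2, D_ofNat, V1]
    have h2 := C2
    linear_combination (-3 * g2) * h - (12 * PowerSeries.C (1 / 2 : ℚ) * g2 ^ 2) * hys - 6 * g2 ^ 2 * h2
  · rw [map_mul, map_sub, map_mul, constantCoeff_y]
    simp [map_ofNat]

/-- `R` for `(2,3)` -/
noncomputable def R1 : ℚ⟦X⟧ := 1 + X + (-12 * X - 6 * X ^ 2 - 3 * X ^ 3) * g8

theorem V1_ode : X * D V1 = V1 * (1 - R1 * sS) := by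
  have h := g2_eq
  have hys := ys
  have hR : R1 = (2 - 2 * X - X ^ 2) * g2 := by
    have e : R1 = 1 + X - 3 * X * g2 := by rw [R1, g2]; ring
    rw [e]; linear_combination (-1 - X) * h
  have hy : yS - (1 + X ^ 3) * sS = 0 := by rw [yS]; ring
  have h32 := C32
  rw [hR, V1, D_mul, D_add, D_add, D_mul, D_X2, D_g2, D_y, D_ofNat]
  linear_combination (-(X * (2 * X + 3 * X ^ 2 * sS) - (2 + X ^ 2 + 2 * yS)) * g2) * h +
    g2 ^ 2 * (2 * (2 - 2 * X - X ^ 2)) * hys + g2 ^ 2 * (4 * X - 4) * hy + (X ^ 3 * sS * g2) * h32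

/-- `(b,c) = (4,-3)` -/
noncomputable def V2 : ℚ⟦X⟧ := (-X ^ 4 - 8 * X ^ 3 + 8 * X - 8 + 4 * yS * (X ^ 2 + 2 * X - 2)) * g8

theorem A2 (m : ℕ) : (((GP 4 (-3) (m + 1)).coeff m : ℤ) : ℚ) = (-1 / 2) * coeff m (sS * V2 ^ (m + 1)) := by
  have h := g8_eq
  have h3 := C3
  have hyy := yy
  have hys := ys
  refine A_eq (v := 3 * (2 - X) ^ 2 * g8) (w := PowerSeries.C (1 / 3 : ℚ) * ((4 + 2 * X + X ^ 2) ^ 2 * g8))
    (V := V2) (V' := (-X ^ 4 - 8 * X ^ 3 + 8 * X - 8 - 4 * yS * (X ^ 2 + 2 * X - 2)) * g8) ?_ ?_ ?_ ?_ ?_ m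
  · linear_combination ((8 - X ^ 3) * g8 + 1) * h + (8 - X ^ 3) ^ 2 * g8 ^ 2 * h3
  · rw [V2]
    linear_combination (-16 * (X ^ 2 + 2 * X - 2) ^ 2 * g8 ^ 2) * hyy + X ^ 2 * ((8 - X ^ 3) * g8 + 1) * h
  · have e2 : (PowerSeries.C (((4 : ℤ) : ℚ))) = (4 : ℚ⟦X⟧) := by push_cast; exact C_ofN 4
    have e3 : (PowerSeries.C (((-3 : ℤ) : ℚ))) = (-3 : ℚ⟦X⟧) := by
      push_cast; rw [map_neg]; exact congrArg Neg.neg (C_ofN 3)
    rw [V2, e2, e3]
    linear_combination 4 * X * h + ((4 + 2 * X + X ^ 2) ^ 2 * g8) * h3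
  · have h2 := C2
    have h2' : PowerSeries.C (-1 / 2 : ℚ) = -PowerSeries.C (1 / 2 : ℚ) := by
      rw [← map_neg]; norm_num
    rw [D_mul, D_mul, D_g8, D_ofNat, D_pow (2 - X) 1, D_sub, D_X, D_ofNat, V2, h2']
    push_cast
    linear_combination (-3 * (2 - X) * (2 - X - 2 * X) * g8) * h +
      (24 * PowerSeries.C (1 / 2 : ℚ) * (2 - X) ^ 2 * (X ^ 2 + 2 * X - 2) * g8 ^ 2) * hys +
      12 * (2 - X) ^ 2 * (X ^ 2 + 2 * X - 2) * g8 ^ 2 * h2
  · rw [map_mul, map_sub, map_mul, map_mul, constantCoeff_y]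
    simp [map_ofNat]
    norm_num

/-- `R` for `(4,-3)` -/
noncomputable def R2 : ℚ⟦X⟧ := 1 - 2 * X + (24 * X + 12 * X ^ 2 - 3 * X ^ 3) * g8

theorem V2_ode : X * D V2 = V2 * (1 - R2 * sS) := by
  have h := g8_eq
  have hys := ys
  have hR : R2 = (8 + 8 * X + 12 * X ^ 2 - 4 * X ^ 3 + 2 * X ^ 4) * g8 := by
    rw [R2]; linear_combination (-1 + 2 * X) * h
  have hy : yS - (1 + X ^ 3) * sS = 0 := by rw [yS]; ring
  have h32 := C32
  rw [hR, V2, D_mul, D_add, D_sub, D_add, D_sub, D_neg, D_mul, D_mul, D_mul, D_mul, D_sub, D_add, D_mul,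
    D_X4, D_X3, D_X2, D_X, D_g8, D_y, D_ofNat, D_ofNat, D_ofNat]
  linear_combination (-(X * (-4 * X ^ 3 - 24 * X ^ 2 + 8 + 6 * X ^ 2 * sS * (X ^ 2 + 2 * X - 2) + 4 * yS * (2 * X + 2)) -
      (-X ^ 4 - 8 * X ^ 3 + 8 * X - 8 + 4 * yS * (X ^ 2 + 2 * X - 2))) * g8) * h +
    g8 ^ 2 * (4 * (X ^ 2 + 2 * X - 2) * (8 + 8 * X + 12 * X ^ 2 - 4 * X ^ 3 + 2 * X ^ 4)) * hys +
    g8 ^ 2 * (4 * X * (2 * X + 2) * (8 - X ^ 3) - 4 * (X ^ 2 + 2 * X - 2) * (8 - X ^ 3) +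
      12 * X ^ 3 * (X ^ 2 + 2 * X - 2)) * hy +
    (2 * X ^ 3 * sS * (X ^ 2 + 2 * X - 2) * g8) * h32

end Pool.Agent.K3h4.B6
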