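import Mathlib
import Pool.Agent.K3h4.B6.Curve
import Pool.Agent.R439.PLoc
import Pool.Agent.K3h4.H48.Val

set_option autoImplicit false

/-!
The coefficient of `x^(p-1)` in `s U^p` modulo `p^2`.
-/

namespace Pool.Agent.K3h4.B6

open Finset PowerSeries Pool.Agent.R439.PL Pool.Agent.R439.PL.S4 Pool.Agent.R488.Cub

variable {p : ℕ} [hp : Fact p.Prime]

theorem coeff_XD (f : ℚ⟦X⟧) (m : ℕ) : coeff m (X * D f) = m * coeff m f := by
  rcases m with _ | m
  · simp
  · rw [coeff_succ_X_mul, D, coeff_derivative]; push_cast; ring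

theorem e_rec {U d : ℚ⟦X⟧} (hU : X * D U = U * d) (q m : ℕ) :
    (m : ℚ) * coeff m (U ^ (q + 1)) = (q + 1) * ∑ i ∈ range (m + 1), coeff i (U ^ (q + 1)) * coeff (m - i) d := by
  rw [← coeff_XD, D_pow]
  have e : X * (((q : ℚ⟦X⟧) + 1) * U ^ q * D U) = ((q + 1 : ℕ) : ℚ⟦X⟧) * (U ^ (q + 1) * d) := by
    push_cast
    linear_combination (((q : ℚ⟦X⟧) + 1) * U ^ q) * hU
  rw [e, coeff_nat_mul, coeff_mul, Finset.Nat.sum_antidiagonal_eq_sum_range_succ_mk]
  push_cast
  rfl

theorem e_bound {U d : ℚ⟦X⟧} (hU : X * D U = U * d) (h0 : constantCoeff U = 1) (hd0 : coeff 0 d = 0)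
    (hd : ∀ m, coeff m d ∈ Zp p) (m : ℕ) : m + 1 < p →
    I p 1 (coeff (m + 1) (U ^ p)) ∧ EQ p 2 (coeff (m + 1) (U ^ p)) (p * (coeff (m + 1) d / (m + 1))) := by
  induction m using Nat.strong_induction_on with
  | _ m ih =>
    intro hm
    obtain ⟨q, hq⟩ : ∃ q, p = q + 1 := ⟨p - 1, by omega⟩
    have h1 := e_rec hU q (m + 1)
    rw [← hq, sum_range_succ, sum_range_succ', Nat.sub_self, hd0, mul_zero, add_zero] at h1
    have hq' : ((q : ℚ) + 1) = p := by rw [hq]; push_cast; ring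
    have h2 : coeff 0 (U ^ p) = 1 := by
      rw [coeff_zero_eq_constantCoeff_apply, map_pow, h0, one_pow]
    rw [h2, one_mul, hq', Nat.sub_zero] at h1
    have u := U_nat (p := p) (k := m + 1) (by omega) hm
    obtain ⟨s, hs⟩ : ∃ s, s = ∑ k ∈ range m, coeff (k + 1) (U ^ p) * coeff (m + 1 - (k + 1)) d := ⟨_, rfl⟩
    rw [← hs] at h1
    have Is : I p 1 s := by
      rw [hs]
      refine I.sum fun k hk => ?_
      have hk' := mem_range.1 hk
      exact ((ih k hk' (by omega)).1).mulR (hd _)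
    have hu0 := u.1
    have e : coeff (m + 1) (U ^ p) = p * (((m + 1 : ℕ) : ℚ)⁻¹ * (s + coeff (m + 1) d)) := by
      field_simp
      linear_combination h1
    have mfin : ((m + 1 : ℕ) : ℚ)⁻¹ * (s + coeff (m + 1) d) ∈ Zp p :=
      mul_mem u.2.2 (add_mem Is.mem (hd _))
    refine ⟨by rw [e]; exact I_p.mulR mfin, ?_⟩
    refine ⟨by rw [e]; exact (I_p.mulR mfin).mem, ?_, ?_⟩
    · rw [div_eq_mul_inv]
      refine mul_mem p_mem (mul_mem (hd _) ?_)
      have := u.2.2
      push_cast at this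
      exact this
    · rw [e]
      have e2 : (p : ℚ) * (((m + 1 : ℕ) : ℚ)⁻¹ * (s + coeff (m + 1) d)) - p * (coeff (m + 1) d / (m + 1)) =
          (p * s) * ((m + 1 : ℕ) : ℚ)⁻¹ := by
        push_cast
        push_cast at hu0
        field_simp
        ring
      rw [e2]
      exact (I_p.mul Is).mulR u.2.2

/-- the coefficient of `x^(p-1)` in `s U^p` modulo `p^2` -/
theorem main_coeff {U d s : ℚ⟦X⟧} (hU : X * D U = U * d) (h0 : constantCoeff U = 1) (hd0 : coeff 0 d = 0)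
    (hd : ∀ m, coeff m d ∈ Zp p) (hs : ∀ m, coeff m s ∈ Zp p) {q : ℕ} (hq : p = q + 1) :
    EQ p 2 (coeff q (s * U ^ p))
      (coeff q s + p * ∑ i ∈ range q, coeff (i + 1) d / ((i : ℚ) + 1) * coeff (q - (i + 1)) s) := by
  rw [mul_comm, coeff_mul, Finset.Nat.sum_antidiagonal_eq_sum_range_succ_mk, sum_range_succ', Nat.sub_zero]
  have h2 : coeff 0 (U ^ p) = 1 := by
    rw [coeff_zero_eq_constantCoeff_apply, map_pow, h0, one_pow]
  rw [h2, one_mul, add_comm, mul_sum]
  refine (EQ.refl (hs q)).add (EQ.sum fun i hi => ?_)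
  have hi' := mem_range.1 hi
  have h3 := (e_bound hU h0 hd0 hd i (by omega)).2.mul (EQ.refl (k := 2) (hs (q - (i + 1))))
  have e : (p : ℚ) * (coeff (i + 1) d / ((i : ℚ) + 1)) * coeff (q - (i + 1)) s =
      p * (coeff (i + 1) d / ((i : ℚ) + 1) * coeff (q - (i + 1)) s) := by ring
  rw [e] at h3
  exact h3

omit hp in
/-- sums over multiples of three -/
theorem sum_three (f : ℕ → ℚ) (K : ℕ) (h : ∀ m < 3 * K, m % 3 ≠ 2 → f m = 0) :
    ∑ i ∈ range (3 * K), f i = ∑ k ∈ range K, f (3 * k + 2) := by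
  induction K with
  | zero => simp
  | succ K ih =>
    rw [show 3 * (K + 1) = 3 * K + 1 + 1 + 1 by ring, sum_range_succ, sum_range_succ, sum_range_succ,
      ih fun m hm => h m (by omega),
      sum_range_succ, h (3 * K) (by omega) (by omega), h (3 * K + 1) (by omega) (by omega)]
    ring

omit hp in
theorem sum_three' (f : ℕ → ℚ) (K : ℕ) (h : ∀ m, m % 3 ≠ 0 → f m = 0) :
    ∑ i ∈ range (3 * K + 1), f i = ∑ k ∈ range (K + 1), f (3 * k) := by
  induction K with
  | zero => simp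
  | succ K ih =>
    rw [show 3 * (K + 1) + 1 = 3 * K + 1 + 1 + 1 + 1 by ring, sum_range_succ, sum_range_succ, sum_range_succ, ih,
      sum_range_succ _ (K + 1), h (3 * K + 1) (by omega), h (3 * K + 1 + 1) (by omega),
      show 3 * K + 1 + 1 + 1 = 3 * (K + 1) by ring]
    ring

/-- the coefficients of `D` -/
def dd (k : ℕ) : ℚ := -cc k + 3 * ∑ i ∈ range k, (1 / 8) ^ (k - i) * cc i

/-- the sum over `k` -/
def W (K : ℕ) : ℚ := ∑ k ∈ range K, dd (k + 1) / (3 * ((k : ℚ) + 1)) * cc (K - (k + 1))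

omit hp in
theorem cc_choose (k : ℕ) : cc k = (-1 / 4) ^ k * ((2 * k).choose k : ℚ) := by
  induction k with
  | zero => simp [cc]
  | succ k ih =>
    rw [cc, ih]
    have h := Nat.succ_mul_centralBinom_succ k
    rw [Nat.centralBinom, Nat.centralBinom] at h
    have h' : ((k : ℚ) + 1) * ((2 * (k + 1)).choose (k + 1) : ℚ) = 2 * (2 * k + 1) * ((2 * k).choose k : ℚ) := by
      exact_mod_cast h
    have : ((k : ℚ) + 1) ≠ 0 := by positivity
    apply mul_left_cancel₀ this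
    have e : ((k : ℚ) + 1) * (-(2 * (k : ℚ) + 1) / (2 * k + 2) * ((-1 / 4) ^ k * ((2 * k).choose k : ℚ))) =
        -(2 * (k : ℚ) + 1) / 2 * ((-1 / 4) ^ k * ((2 * k).choose k : ℚ)) := by
      have h2 : (2 * (k : ℚ) + 2) = 2 * (k + 1) := by ring
      rw [h2]
      field_simp
    rw [e, pow_succ]
    linear_combination (1 / 4) * (-1 / 4) ^ k * h'

theorem U8 (h3 : 3 < p) : U p (8 : ℚ) := by
  have := (U_nat (p := p) (k := 2) (by norm_num) (by omega)).pow 3
  norm_num at this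
  exact this

theorem U4' (h3 : 3 < p) : U p (4 : ℚ) := by
  have := (U_nat (p := p) (k := 2) (by norm_num) (by omega)).pow 2
  norm_num at this
  exact this

theorem mem8 (h3 : 3 < p) : (1 / 8 : ℚ) ∈ Zp p := by
  have := (U8 (p := p) h3).2.2
  rwa [show (1 / 8 : ℚ) = 8⁻¹ by norm_num]

theorem cc_mem (h3 : 3 < p) (k : ℕ) : cc k ∈ Zp p := by
  rw [cc_choose, show (-1 / 4 : ℚ) = -4⁻¹ by norm_num]
  exact mul_mem (pow_mem (neg_mem (U4' h3).2.2) _) (nat_mem _)

theorem sS_mem (h3 : 3 < p) (m : ℕ) : coeff m sS ∈ Zp p := by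
  rw [coeff_sS]
  split_ifs
  · exact cc_mem h3 _
  · exact zero_mem _

/-- the family of series `R` -/
noncomputable def RR (a b c : ℤ) : ℚ⟦X⟧ := 1 + PowerSeries.C (a : ℚ) * X +
  (PowerSeries.C (b : ℚ) * X + PowerSeries.C (c : ℚ) * X ^ 2 - PowerSeries.C (3 : ℚ) * X ^ 3) * g8

omit hp in
theorem RR_coeff (a b c : ℤ) (m : ℕ) : coeff m (RR a b c) = (if m = 0 then 1 else 0) +
    a * (if m = 1 then 1 else 0) + (b * (if 1 ≤ m then coeff (m - 1) g8 else 0) +
    c * (if 2 ≤ m then coeff (m - 2) g8 else 0) - 3 * (if 3 ≤ m then coeff (m - 3) g8 else 0)) := by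
  have e : RR a b c = 1 + PowerSeries.C (a : ℚ) * X + (PowerSeries.C (b : ℚ) * (X ^ 1 * g8) +
    PowerSeries.C (c : ℚ) * (X ^ 2 * g8) - PowerSeries.C (3 : ℚ) * (X ^ 3 * g8)) := by rw [RR]; ring
  rw [e, map_add, map_add, map_sub, map_add, coeff_C_mul, coeff_C_mul, coeff_C_mul, coeff_C_mul,
    coeff_X_pow_mul', coeff_X_pow_mul', coeff_X_pow_mul', coeff_one, coeff_X]

theorem g8_mem (h3 : 3 < p) (m : ℕ) : coeff m g8 ∈ Zp p := by
  rw [coeff_g8]
  split_ifs
  · exact pow_mem (mem8 h3) _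
  · exact zero_mem _

theorem RR_mem (h3 : 3 < p) (a b c : ℤ) (m : ℕ) : coeff m (RR a b c) ∈ Zp p := by
  rw [RR_coeff]
  have m3 : (3 : ℚ) ∈ Zp p := by exact_mod_cast nat_mem (p := p) 3
  refine add_mem (add_mem ?_ (mul_mem (int_mem a) ?_)) (sub_mem (add_mem (mul_mem (int_mem b) ?_)
    (mul_mem (int_mem c) ?_)) (mul_mem m3 ?_))
  all_goals
    split_ifs
    · first | exact one_mem _ | exact g8_mem h3 _
    · exact zero_mem _

omit hp in
theorem RR_three (a b c : ℤ) (l : ℕ) : coeff (3 * l) (RR a b c) = if l = 0 then 1 else -3 * (1 / 8) ^ l := by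
  rw [RR_coeff]
  rcases l with _ | l
  · simp
  · rw [if_neg (by omega), if_neg (by omega), if_pos (by omega), if_pos (by omega), if_pos (by omega),
      if_neg (by omega), coeff_g8, coeff_g8, coeff_g8, if_neg (by omega), if_neg (by omega), if_pos (by omega),
      show (3 * (l + 1) - 3) / 3 = l by omega]
    ring

/-- the coefficients of `1 - R s` -/
theorem dd_coeff (a b c : ℤ) (k : ℕ) (hk : 0 < k) : coeff (3 * k) (1 - RR a b c * sS) = dd k := by
  rw [map_sub, coeff_one, if_neg (by omega), mul_comm (RR a b c), coeff_mul, Finset.Nat.sum_antidiagonal_eq_sum_range_succ_mk,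
    sum_three']
  · rw [sum_range_succ, dd]
    have e : ∀ i ∈ range k, coeff (3 * i) sS * coeff (3 * k - 3 * i) (RR a b c) =
        -3 * ((1 / 8) ^ (k - i) * cc i) := by
      intro i hi
      have hi' := mem_range.1 hi
      rw [show 3 * k - 3 * i = 3 * (k - i) by omega, RR_three, if_neg (by omega), coeff_sS, if_pos (by omega),
        show 3 * i / 3 = i by omega]
      ring
    have e2 := sum_congr rfl e
    simp only [Nat.sub_self] at e2 ⊢
    rw [e2, ← mul_sum, coeff_sS, if_pos (by omega), show 3 * k / 3 = k by omega]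
    have e3 := RR_three a b c 0
    rw [mul_zero, if_pos rfl] at e3
    rw [e3]
    ring
  · intro m hm
    simp only
    rw [coeff_sS, if_neg hm, zero_mul]

theorem d_zero (a b c : ℤ) : coeff 0 (1 - RR a b c * sS) = 0 := by
  have e3 := RR_three a b c 0
  rw [mul_zero, if_pos rfl] at e3
  rw [coeff_zero_eq_constantCoeff_apply] at e3 ⊢
  rw [map_sub, map_mul, e3, constantCoeff_sS]
  simp

theorem d_mem (h3 : 3 < p) (a b c : ℤ) (m : ℕ) : coeff m (1 - RR a b c * sS) ∈ Zp p := by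
  rw [map_sub, coeff_mul]
  refine sub_mem ?_ (sum_mem fun x _ => mul_mem (RR_mem h3 a b c _) (sS_mem h3 _))
  rw [coeff_one]
  split_ifs
  · exact one_mem _
  · exact zero_mem _

/-- the result for `p = 3 K + 1` -/
theorem coeff_one_mod (h3 : 3 < p) {K : ℕ} (hK : p = 3 * K + 1) {U : ℚ⟦X⟧} {a b c : ℤ}
    (hU : X * D U = U * (1 - RR a b c * sS)) (h0 : constantCoeff U = 1) :
    EQ p 2 (coeff (p - 1) (sS * U ^ p)) (cc K + p * W K) := by
  have h := main_coeff (p := p) hU h0 (d_zero a b c) (d_mem h3 a b c) (sS_mem h3) (q := 3 * K) hK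
  rw [show p - 1 = 3 * K by omega]
  have e1 : coeff (3 * K) sS = cc K := by
    rw [coeff_sS, if_pos (by omega), show 3 * K / 3 = K by omega]
  have e2 : ∑ i ∈ range (3 * K), coeff (i + 1) (1 - RR a b c * sS) / ((i : ℚ) + 1) *
      coeff (3 * K - (i + 1)) sS = W K := by
    rw [sum_three, W]
    · refine sum_congr rfl fun k hk => ?_
      have hk' := mem_range.1 hk
      rw [show 3 * k + 2 + 1 = 3 * (k + 1) by ring, dd_coeff a b c (k + 1) (by omega), coeff_sS,
        if_pos (by omega), show (3 * K - 3 * (k + 1)) / 3 = K - (k + 1) by omega]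
      push_cast
      ring
    · intro m hm1 hm
      rw [coeff_sS, if_neg (by omega), mul_zero]
  rw [e1, e2] at h
  exact h

/-- the result for `p = 3 K + 2` -/
theorem coeff_two_mod (h3 : 3 < p) (hK : p % 3 = 2) {U : ℚ⟦X⟧} {a b c : ℤ}
    (hU : X * D U = U * (1 - RR a b c * sS)) (h0 : constantCoeff U = 1) :
    I p 1 (coeff (p - 1) (sS * U ^ p)) := by
  obtain ⟨q, hq⟩ : ∃ q, p = q + 1 := ⟨p - 1, by omega⟩
  have h := main_coeff (p := p) hU h0 (d_zero a b c) (d_mem h3 a b c) (sS_mem h3) (q := q) hq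
  rw [show p - 1 = q by omega]
  have e1 : coeff q sS = 0 := by
    rw [coeff_sS, if_neg (by omega)]
  rw [e1, zero_add] at h
  have h2 := h.2.2.mono (l := 1) (by norm_num)
  obtain ⟨s, hs⟩ : ∃ s, s = ∑ i ∈ range q, coeff (i + 1) (1 - RR a b c * sS) / ((i : ℚ) + 1) *
    coeff (q - (i + 1)) sS := ⟨_, rfl⟩
  rw [← hs] at h2
  have ms : s ∈ Zp p := by
    rw [hs]
    refine sum_mem fun i hi => ?_
    have hi' := mem_range.1 hi
    have u := U_nat (p := p) (k := i + 1) (by omega) (by omega)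
    rw [div_eq_mul_inv]
    refine mul_mem (mul_mem (d_mem h3 a b c _) ?_) (sS_mem h3 _)
    have := u.2.2
    push_cast at this
    exact this
  have e : coeff q (sS * U ^ p) = (coeff q (sS * U ^ p) - p * s) + p * s := by ring
  rw [e]
  exact h2.add (I_p.mulR ms)

end Pool.Agent.K3h4.B6
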