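import Mathlib
import Pool.Agent.K3h4.B6.ModP

set_option autoImplicit false

/-!
Closed form of the sum `W`.
-/

namespace Pool.Agent.K3h4.B6

open Finset PowerSeries Pool.Agent.R488.Cub

/-- the generating function of `C(-1/2,k)` -/
noncomputable def Cs : ℚ⟦X⟧ := PowerSeries.mk cc

/-- `∑ c_k x^k/k` -/
noncomputable def Ls : ℚ⟦X⟧ := PowerSeries.mk fun k => cc k / k

/-- `∑ (∑_{i<k} 8^(i-k) c_i) x^k/k` -/
noncomputable def Ns : ℚ⟦X⟧ := PowerSeries.mk fun k => (∑ i ∈ range k, (1 / 8) ^ (k - i) * cc i) / k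

/-- `1/(8-x)` -/
noncomputable def gs : ℚ⟦X⟧ := PowerSeries.mk fun k => (1 / 8) ^ (k + 1)

theorem Cs_ode : (1 + X) * D Cs = -(PowerSeries.C (1 / 2 : ℚ) * Cs) := by
  ext m
  have e : (1 + X) * D Cs = D Cs + X * D Cs := by ring
  rw [e, map_add, coeff_XD, map_neg, coeff_C_mul, D, coeff_derivative, Cs, coeff_mk, coeff_mk]
  linear_combination (1 / 2) * cc_succ m

theorem C2' : PowerSeries.C (1 / 2 : ℚ) * 2 = 1 := C2

theorem Cs_sq : (1 + X) * Cs ^ 2 = 1 := by
  apply PowerSeries.derivative.ext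
  · have h1 : D ((1 + X) * Cs ^ 2) = 0 := by
      have hX : D ((1 : ℚ⟦X⟧) + X) = 1 := by
        rw [D_add, D_one, D_X, zero_add]
      have hS : D (Cs ^ 2) = 2 * Cs * D Cs := by
        have := D_pow Cs 1
        rw [show 1 + 1 = 2 by norm_num] at this
        rw [this]; push_cast; ring
      rw [D_mul, hS, hX]
      have h := Cs_ode
      have hC := C2'
      linear_combination 2 * Cs * h - Cs ^ 2 * hC
    rw [D] at h1
    rw [h1]
    simp
  · rw [map_mul, map_pow]
    have : constantCoeff Cs = 1 := by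
      rw [← coeff_zero_eq_constantCoeff_apply, Cs, coeff_mk, cc]
    rw [this]
    simp

theorem Ls_ode : X * D Ls = Cs - 1 := by
  ext m
  rw [coeff_XD, map_sub, Ls, coeff_mk, Cs, coeff_mk, coeff_one]
  rcases m with _ | m
  · simp [cc]
  · rw [if_neg (by omega)]
    have : (((m + 1 : ℕ)) : ℚ) ≠ 0 := by positivity
    field_simp
    ring

theorem Ns_ode : D Ns = Cs * gs := by
  ext m
  rw [D, coeff_derivative, Ns, coeff_mk, coeff_mul, Finset.Nat.sum_antidiagonal_eq_sum_range_succ_mk]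
  have : ((m : ℚ) + 1) ≠ 0 := by positivity
  push_cast
  rw [div_mul_cancel₀ _ this]
  refine sum_congr rfl fun i hi => ?_
  have hi' := mem_range.1 hi
  rw [Cs, gs, coeff_mk, coeff_mk, show m + 1 - i = m - i + 1 by omega]
  ring

theorem M_rec (k : ℕ) : ((k : ℚ) + 1) * coeff (k + 1) (Ls * Cs) =
    -(k + 1 / 2) * coeff k (Ls * Cs) - (cc (k + 1) + cc k) := by
  have h : X * ((1 + X) * D (Ls * Cs)) = 1 - (1 + X) * Cs - PowerSeries.C (1 / 2 : ℚ) * (X * (Ls * Cs)) := by
    rw [D_mul]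
    have h1 := Ls_ode
    have h2 := Cs_ode
    have h3 := Cs_sq
    linear_combination (1 + X) * Cs * h1 + X * Ls * h2 + h3
  have h2 := congrArg (coeff (k + 1)) h
  rw [coeff_succ_X_mul] at h2
  have e : (1 + X) * D (Ls * Cs) = D (Ls * Cs) + X * D (Ls * Cs) := by ring
  have e2 : (1 + X) * Cs = Cs + X * Cs := by ring
  rw [e, e2, map_add, coeff_XD, D, coeff_derivative, map_sub, map_sub, coeff_C_mul, map_add, coeff_succ_X_mul,
    coeff_succ_X_mul, coeff_one, if_neg (by omega)] at h2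
  have e3 : coeff (k + 1) Cs = cc (k + 1) := by rw [Cs, coeff_mk]
  have e4 : coeff k Cs = cc k := by rw [Cs, coeff_mk]
  rw [e3, e4] at h2
  linear_combination h2

theorem cc_ne (k : ℕ) : cc k ≠ 0 := by
  rw [cc_choose]
  have : 0 < (2 * k).choose k := Nat.choose_pos (by omega)
  positivity

theorem M_eq (k : ℕ) : coeff k (Ls * Cs) = cc k * (2 * (H (2 * k) - H k)) := by
  induction k with
  | zero =>
    rw [coeff_zero_eq_constantCoeff_apply, map_mul]
    have : constantCoeff Ls = 0 := by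
      rw [← coeff_zero_eq_constantCoeff_apply, Ls, coeff_mk]; simp
    rw [this]
    simp [H]
  | succ k ih =>
    have h := M_rec k
    rw [ih] at h
    have hk : ((k : ℚ) + 1) ≠ 0 := by positivity
    have hk2 : (2 * (k : ℚ) + 1) ≠ 0 := by positivity
    apply mul_left_cancel₀ hk
    rw [h]
    have hc := cc_succ k
    have hH : H (2 * (k + 1)) - H (k + 1) = (H (2 * k) - H k) + 1 / (2 * ((2 * k + 1) * (k + 1))) := by
      rw [show 2 * (k + 1) = 2 * k + 1 + 1 by ring, H, H, H, H, sum_range_succ _ (2 * k + 1), sum_range_succ _ (2 * k),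
        sum_range_succ _ k]
      push_cast
      have h4 : (2 * (k : ℚ) + 1 + 1) ≠ 0 := by positivity
      field_simp
      ring
    rw [hH]
    have hc' : cc k = -(2 * ((k : ℚ) + 1) * cc (k + 1)) / (2 * k + 1) := by
      field_simp
      linear_combination hc
    rw [hc']
    field_simp
    ring

theorem P_rec (k : ℕ) : ((k : ℚ) + 1) * coeff (k + 1) (Ns * Cs) =
    -(k + 1 / 2) * coeff k (Ns * Cs) + (1 / 8) ^ (k + 1) := by
  have h : (1 + X) * D (Ns * Cs) = gs - PowerSeries.C (1 / 2 : ℚ) * (Ns * Cs) := by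
    rw [D_mul]
    have h1 := Ns_ode
    have h2 := Cs_ode
    have h3 := Cs_sq
    linear_combination (1 + X) * Cs * h1 + Ns * h2 + gs * h3
  have h2 := congrArg (coeff k) h
  have e : (1 + X) * D (Ns * Cs) = D (Ns * Cs) + X * D (Ns * Cs) := by ring
  rw [e, map_add, coeff_XD, D, coeff_derivative, map_sub, coeff_C_mul] at h2
  have e3 : coeff k gs = (1 / 8) ^ (k + 1) := by rw [gs, coeff_mk]
  rw [e3] at h2
  linear_combination h2

/-- the sum `∑ 1/(k 8^k c_k)` -/
def S2 (K : ℕ) : ℚ := ∑ k ∈ range K, 1 / (((k : ℚ) + 1) * 8 ^ (k + 1) * cc (k + 1))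

theorem P_eq (k : ℕ) : coeff k (Ns * Cs) = cc k * S2 k := by
  induction k with
  | zero =>
    rw [coeff_zero_eq_constantCoeff_apply, map_mul]
    have : constantCoeff Ns = 0 := by
      rw [← coeff_zero_eq_constantCoeff_apply, Ns, coeff_mk]; simp
    rw [this]
    simp [S2]
  | succ k ih =>
    have h := P_rec k
    rw [ih] at h
    have hk : ((k : ℚ) + 1) ≠ 0 := by positivity
    apply mul_left_cancel₀ hk
    rw [h, S2, S2, sum_range_succ]
    have hc := cc_succ k
    have hn := cc_ne (k + 1)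
    have h8 : (8 : ℚ) ^ (k + 1) ≠ 0 := by positivity
    rw [show (1 / 8 : ℚ) ^ (k + 1) = 1 / 8 ^ (k + 1) by rw [one_div_pow]]
    generalize ∑ x ∈ range k, 1 / (((x : ℚ) + 1) * 8 ^ (x + 1) * cc (x + 1)) = S
    have e : ((k : ℚ) + 1) * (cc (k + 1) * (S + 1 / (((k : ℚ) + 1) * 8 ^ (k + 1) * cc (k + 1)))) =
        ((k : ℚ) + 1) * cc (k + 1) * S + 1 / 8 ^ (k + 1) := by
      field_simp
    rw [e]
    linear_combination (-1 / 2) * S * hc

/-- the closed form of `W` -/
theorem W_eq (K : ℕ) : W K = cc K * (-(2 / 3) * (H (2 * K) - H K) + S2 K) := by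
  have h1 := M_eq K
  have h2 := P_eq K
  have e : W K = -(1 / 3) * coeff K (Ls * Cs) + coeff K (Ns * Cs) := by
    rw [coeff_mul, coeff_mul, Finset.Nat.sum_antidiagonal_eq_sum_range_succ_mk,
      Finset.Nat.sum_antidiagonal_eq_sum_range_succ_mk, sum_range_succ', sum_range_succ', W, mul_add, mul_sum]
    have z1 : coeff 0 Ls = 0 := by rw [Ls, coeff_mk]; simp
    have z2 : coeff 0 Ns = 0 := by rw [Ns, coeff_mk]; simp
    rw [z1, z2, zero_mul, mul_zero, add_zero, add_zero, ← sum_add_distrib]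
    refine sum_congr rfl fun k hk => ?_
    rw [Ls, Ns, Cs, coeff_mk, coeff_mk, coeff_mk, dd]
    push_cast
    have hk : ((k : ℚ) + 1) ≠ 0 := by positivity
    field_simp
  rw [e, h1, h2]
  ring

end Pool.Agent.K3h4.B6
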