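import Mathlib
import Pool.Agent.K3h4.B6.Sums

set_option autoImplicit false

/-!
The sum `∑ 1/(k 8^k c_k)` modulo `p`.
-/

namespace Pool.Agent.K3h4.B6

open Finset Polynomial Pool.Agent.R439.PL Pool.Agent.R439.PL.S4 Pool.Agent.R488.Cub

/-- the integral over `[0,1]` -/
noncomputable def J (f : ℚ[X]) : ℚ := f.sum fun i a => a / ((i : ℚ) + 1)

theorem J_eq {f : ℚ[X]} {N : ℕ} (h : f.natDegree < N) : J f = ∑ i ∈ range N, f.coeff i / ((i : ℚ) + 1) := by
  rw [J, sum_over_range' f (fun i => by simp) N h]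

theorem J_add (f g : ℚ[X]) : J (f + g) = J f + J g := by
  rw [J, J, J]
  exact sum_add_index f g _ (fun i => by simp) (fun i a b => by ring)

theorem J_C (a : ℚ) (f : ℚ[X]) : J (C a * f) = a * J f := by
  have h1 : f.natDegree < f.natDegree + 1 := by omega
  have h2 : (C a * f).natDegree < f.natDegree + 1 := lt_of_le_of_lt (natDegree_C_mul_le _ _) h1
  rw [J_eq h1, J_eq h2, mul_sum]
  refine sum_congr rfl fun i _ => ?_
  rw [coeff_C_mul]; ring

theorem J_sub (f g : ℚ[X]) : J (f - g) = J f - J g := by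
  have : f - g = f + C (-1) * g := by simp; ring
  rw [this, J_add, J_C]; ring

theorem J_X (a : ℕ) : J (X ^ a) = 1 / ((a : ℚ) + 1) := by
  rw [J, X_pow_eq_monomial, sum_monomial_index _ _ (by simp)]

theorem J_sum {ι : Type*} (s : Finset ι) (f : ι → ℚ[X]) : J (∑ i ∈ s, f i) = ∑ i ∈ s, J (f i) := by
  classical
  induction s using Finset.induction_on with
  | empty => simp [J]
  | insert a s ha ih => rw [sum_insert ha, sum_insert ha, J_add, ih]

theorem J_beta (b : ℕ) : ∀ a : ℕ, J (X ^ a * (1 - X) ^ b) =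
    (a.factorial : ℚ) * b.factorial / (a + b + 1).factorial := by
  induction b with
  | zero =>
    intro a
    rw [pow_zero, mul_one, J_X, add_zero, Nat.factorial_succ, Nat.factorial_zero]
    have := Nat.factorial_pos a
    push_cast
    field_simp
  | succ b ih =>
    intro a
    have e : (X : ℚ[X]) ^ a * (1 - X) ^ (b + 1) = X ^ a * (1 - X) ^ b - X ^ (a + 1) * (1 - X) ^ b := by ring
    rw [e, J_sub, ih a, ih (a + 1), show a + 1 + b + 1 = (a + b + 1) + 1 by ring,
      show a + (b + 1) + 1 = (a + b + 1) + 1 by ring, Nat.factorial_succ (a + b + 1), Nat.factorial_succ a,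
      Nat.factorial_succ b]
    have := Nat.factorial_pos (a + b + 1)
    push_cast
    have h2 : ((a : ℚ) + b + 1 + 1) ≠ 0 := by positivity
    field_simp
    ring

/-- `r = x(x-1)/2` -/
noncomputable def rr : ℚ[X] := C (1 / 2) * (X * (X - 1))

/-- the integrand -/
noncomputable def gK (K : ℕ) : ℚ[X] := ∑ k ∈ range K, rr ^ k * (C (1 / 2) * (2 - X))

theorem CC (a : ℚ) (n : ℕ) : (C a : ℚ[X]) ^ n = C (a ^ n) := (C_pow).symm

theorem C2h : (C (1 / 2 : ℚ) : ℚ[X]) * 2 = 1 := by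
  rw [show (2 : ℚ[X]) = C 2 from (map_ofNat _ 2).symm, ← C_mul]
  norm_num

theorem J_term (k : ℕ) : J (rr ^ k * (C (1 / 2) * (2 - X))) = -3 * (1 / (((k : ℚ) + 1) * 8 ^ (k + 1) * cc (k + 1))) := by
  have e : rr ^ k * (C (1 / 2) * (2 - X)) = C ((-1 / 2) ^ k * (1 / 2)) * (X ^ k * (1 - X) ^ k + X ^ k * (1 - X) ^ (k + 1)) := by
    have e1 : rr = C (-1 / 2) * (X * (1 - X)) := by
      rw [rr, show (-1 / 2 : ℚ) = -(1 / 2) by norm_num, C_neg]; ring
    rw [e1, mul_pow, mul_pow, CC, C_mul]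
    ring
  rw [e, J_C, J_add, J_beta, J_beta]
  rw [cc_choose]
  have h := Nat.choose_mul_factorial_mul_factorial (show k + 1 ≤ 2 * (k + 1) by omega)
  rw [show 2 * (k + 1) - (k + 1) = k + 1 by omega] at h
  have h' : ((2 * (k + 1)).choose (k + 1) : ℚ) = (2 * (k + 1)).factorial / ((k + 1).factorial * (k + 1).factorial) := by
    rw [eq_div_iff (by positivity)]
    rw [← mul_assoc]
    exact_mod_cast h
  rw [h', show 2 * (k + 1) = (2 * k + 1) + 1 by ring, Nat.factorial_succ (2 * k + 1), Nat.factorial_succ k,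
    show k + k + 1 = 2 * k + 1 by ring, show k + (k + 1) + 1 = (2 * k + 1) + 1 by ring,
    Nat.factorial_succ (2 * k + 1)]
  have f1 := Nat.factorial_pos (2 * k + 1)
  have f2 := Nat.factorial_pos k
  push_cast
  have e8 : (8 : ℚ) ^ (k + 1) * (-1 / 4) ^ (k + 1) = (-2) ^ (k + 1) := by rw [← mul_pow]; norm_num
  have e2 : (-1 / 2 : ℚ) ^ k * (-2) ^ k = 1 := by rw [← mul_pow]; norm_num
  have n1 : ((-2 : ℚ)) ^ (k + 1) ≠ 0 := pow_ne_zero _ (by norm_num)
  have e3 : ((k : ℚ) + 1) * 8 ^ (k + 1) * ((-1 / 4) ^ (k + 1) * ((2 * (k : ℚ) + 1 + 1) * ((2 * k + 1).factorial : ℚ) /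
      (((k : ℚ) + 1) * (k.factorial : ℚ) * (((k : ℚ) + 1) * k.factorial)))) =
      (-2) ^ (k + 1) * (2 * ((2 * k + 1).factorial : ℚ) / ((k.factorial : ℚ) * k.factorial)) := by
    rw [← e8]
    field_simp
    ring
  rw [e3]
  have e4 : (1 : ℚ) / ((-2) ^ (k + 1) * (2 * ((2 * k + 1).factorial : ℚ) / ((k.factorial : ℚ) * k.factorial))) =
      (-1 / 2) ^ (k + 1) * ((k.factorial : ℚ) * k.factorial) / (2 * (2 * k + 1).factorial) := by
    have e5 : (-1 / 2 : ℚ) ^ (k + 1) = ((-2) ^ (k + 1))⁻¹ := by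
      rw [← inv_pow]; norm_num
    rw [e5]
    field_simp
  rw [e4, pow_succ]
  field_simp
  ring

theorem J_gK (K : ℕ) : J (gK K) = -3 * S2 K := by
  rw [gK, J_sum, S2, mul_sum]
  exact sum_congr rfl fun k _ => J_term k

theorem gK_mul (K : ℕ) : (1 + X) * gK K = 1 - rr ^ K := by
  induction K with
  | zero => simp [gK]
  | succ K ih =>
    have e : gK (K + 1) = gK K + rr ^ K * (C (1 / 2) * (2 - X)) := by rw [gK, gK, sum_range_succ]
    have h2 := C2h
    rw [e, mul_add, ih, pow_succ]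
    have e2 : (1 + X) * (C (1 / 2) * (2 - X)) = 1 - rr := by
      rw [rr]; linear_combination h2
    linear_combination rr ^ K * e2

theorem rr_coeff (K m : ℕ) : (rr ^ K).coeff m = if K ≤ m then (1 / 2) ^ K * ((-1) ^ (K - (m - K)) *
    (K.choose (m - K) : ℚ)) else 0 := by
  have e : rr ^ K = C ((1 / 2) ^ K) * ((X + C (-1)) ^ K * X ^ K) := by
    rw [rr, mul_pow, mul_pow, CC]
    simp
    ring
  rw [e, coeff_C_mul, coeff_mul_X_pow']
  split_ifs
  · rw [coeff_X_add_C_pow]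
  · ring

theorem rr_symm {K m : ℕ} (hK : Even K) (hm : m ≤ 3 * K) : (rr ^ K).coeff (3 * K - m) = (rr ^ K).coeff m := by
  rw [rr_coeff, rr_coeff]
  by_cases h1 : K ≤ m
  · by_cases h2 : m ≤ 2 * K
    · rw [if_pos h1, if_pos (by omega)]
      obtain ⟨l, hl⟩ : ∃ l, m = K + l := ⟨m - K, by omega⟩
      have hlK : l ≤ K := by omega
      rw [show 3 * K - m - K = K - l by omega, show m - K = l by omega, Nat.choose_symm hlK,
        show K - (K - l) = l by omega]
      have : ((-1 : ℚ)) ^ l = (-1) ^ (K - l) := by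
        have h3 : ((-1 : ℚ)) ^ K = 1 := hK.neg_one_pow
        have h4 : ((-1 : ℚ)) ^ l * (-1) ^ (K - l) = 1 := by rw [← pow_add, show l + (K - l) = K by omega, h3]
        have h5 : ((-1 : ℚ)) ^ (K - l) * (-1) ^ (K - l) = 1 := by rw [← mul_pow]; norm_num
        calc ((-1 : ℚ)) ^ l = (-1) ^ l * ((-1) ^ (K - l) * (-1) ^ (K - l)) := by rw [h5, mul_one]
          _ = (-1) ^ (K - l) := by rw [← mul_assoc, h4, one_mul]
      rw [this]
    · rw [if_neg (by omega), if_pos h1, Nat.choose_eq_zero_of_lt (show K < m - K by omega)]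
      simp
  · rw [if_neg h1, if_pos (by omega), Nat.choose_eq_zero_of_lt (show K < 3 * K - m - K by omega)]
    simp

theorem g_rec (K i : ℕ) : (gK K).coeff (i + 1) + (gK K).coeff i = -(rr ^ K).coeff (i + 1) := by
  have h := congrArg (fun f => f.coeff (i + 1)) (gK_mul K)
  beta_reduce at h
  rw [show (1 + X) * gK K = gK K + X * gK K by ring, coeff_add, coeff_X_mul, coeff_sub, coeff_one,
    if_neg (by omega)] at h
  rw [h]; ring

theorem g_zero {K : ℕ} (hK : 0 < K) : (gK K).coeff 0 = 1 := by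
  have h := congrArg (fun f => f.coeff 0) (gK_mul K)
  beta_reduce at h
  rw [show (1 + X) * gK K = gK K + X * gK K by ring, coeff_add, coeff_X_mul_zero, coeff_sub, coeff_one,
    if_pos rfl, rr_coeff, if_neg (by omega)] at h
  linarith

theorem g_deg {K : ℕ} (hK : 0 < K) : (gK K).natDegree < 2 * K := by
  have h1 : (gK K).natDegree ≤ 2 * K - 1 := by
    rw [gK]
    refine natDegree_sum_le_of_forall_le _ _ fun k hk => ?_
    have hk' := mem_range.1 hk
    have h2 : rr.natDegree ≤ 2 := by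
      rw [rr]; compute_degree
    have h3 : (C (1 / 2 : ℚ) * (2 - X)).natDegree ≤ 1 := by compute_degree
    have h4 := natDegree_mul_le (p := rr ^ k) (q := C (1 / 2 : ℚ) * (2 - X))
    have h5 := natDegree_pow_le (p := rr) (n := k)
    have h6 : k * rr.natDegree ≤ k * 2 := Nat.mul_le_mul_left _ h2
    omega
  omega

theorem g_last {K i : ℕ} (hK : 0 < K) (hi : 2 * K ≤ i) : (gK K).coeff i = 0 :=
  coeff_eq_zero_of_natDegree_lt (lt_of_lt_of_le (g_deg hK) hi)

theorem g_symm {K : ℕ} (hK : 0 < K) (hE : Even K) (i : ℕ) : i < 3 * K →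
    (gK K).coeff i - (gK K).coeff (3 * K - 1 - i) = (-1) ^ i := by
  induction i with
  | zero =>
    intro _
    rw [g_zero hK, g_last hK (by omega)]; simp
  | succ i ih =>
    intro hi
    have h1 := ih (by omega)
    have h2 := g_rec K i
    have h3 := g_rec K (3 * K - 1 - (i + 1))
    rw [show 3 * K - 1 - (i + 1) + 1 = 3 * K - (i + 1) by omega, rr_symm hE (show i + 1 ≤ 3 * K by omega)] at h3
    rw [show 3 * K - 1 - i = 3 * K - (i + 1) by omega] at h1
    rw [pow_succ]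
    linear_combination -h1 + h2 - h3

variable {p : ℕ} [hp : Fact p.Prime]

theorem half_mem (h3 : 3 < p) : (1 / 2 : ℚ) ∈ Zp p := by
  have := (U_nat (p := p) (k := 2) (by norm_num) (by omega)).2.2
  norm_num at this
  norm_num
  exact this

theorem rr_mem (h3 : 3 < p) (K m : ℕ) : (rr ^ K).coeff m ∈ Zp p := by
  rw [rr_coeff]
  split_ifs
  · exact mul_mem (pow_mem (half_mem h3) _) (mul_mem (pow_mem (neg_mem (one_mem _)) _) (nat_mem _))
  · exact zero_mem _

theorem g_mem (h3 : 3 < p) {K : ℕ} (hK : 0 < K) (i : ℕ) : (gK K).coeff i ∈ Zp p := by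
  induction i with
  | zero => rw [g_zero hK]; exact one_mem _
  | succ i ih =>
    have h := g_rec K i
    have e : (gK K).coeff (i + 1) = -(rr ^ K).coeff (i + 1) - (gK K).coeff i := by linarith
    rw [e]
    exact sub_mem (neg_mem (rr_mem h3 _ _)) ih

/-- the alternating harmonic sum -/
theorem alt_sum (h3 : 3 < p) {q : ℕ} (hq : p = q + 1) :
    EQ p 2 (p * ∑ i ∈ range q, (-1) ^ i / ((i : ℚ) + 1)) (2 ^ p - 2) := by
  have h1 : ((2 : ℚ) ^ p - 2) = ∑ i ∈ range q, p * (((p - 1).choose i : ℚ) / ((i : ℚ) + 1)) := by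
    have h2 := Nat.sum_range_choose p
    have h4 : (2 : ℚ) ^ p = ∑ i ∈ range (p + 1), (p.choose i : ℚ) := by
      exact_mod_cast h2.symm
    rw [h4, sum_range_succ, show range p = range (q + 1) by rw [hq], sum_range_succ', Nat.choose_self,
      Nat.choose_zero_right]
    have h5 : ∀ i ∈ range q, (p.choose (i + 1) : ℚ) = p * (((p - 1).choose i : ℚ) / ((i : ℚ) + 1)) := by
      intro i _
      have h6 := Nat.add_one_mul_choose_eq q i
      have h7 : ((q : ℚ) + 1) * (q.choose i : ℚ) = ((q + 1).choose (i + 1) : ℚ) * ((i : ℚ) + 1) := by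
        exact_mod_cast h6
      have h8 : ((i : ℚ) + 1) ≠ 0 := by positivity
      rw [show p - 1 = q by omega, hq]
      push_cast
      field_simp
      linear_combination -h7
    rw [sum_congr rfl h5]
    push_cast
    ring
  rw [h1, mul_sum]
  refine EQ.sum fun i hi => ?_
  have hi' := mem_range.1 hi
  have u := U_nat (p := p) (k := i + 1) (by omega) (by omega)
  have hc := (HarmP.choose_pm1 (p := p) i (by omega)).symm
  have u' : ((i : ℚ) + 1)⁻¹ ∈ Zp p := by
    have := u.2.2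
    push_cast at this
    exact this
  have m1 : ((-1 : ℚ)) ^ i ∈ Zp p := pow_mem (neg_mem (one_mem _)) _
  refine ⟨mul_mem p_mem ?_, mul_mem p_mem ?_, ?_⟩
  · rw [div_eq_mul_inv]; exact mul_mem m1 u'
  · rw [div_eq_mul_inv]; exact mul_mem (nat_mem _) u'
  · have e : (p : ℚ) * ((-1) ^ i / ((i : ℚ) + 1)) - p * (((p - 1).choose i : ℚ) / ((i : ℚ) + 1)) =
        p * ((-1) ^ i - ((p - 1).choose i : ℚ)) * ((i : ℚ) + 1)⁻¹ := by
      rw [div_eq_mul_inv, div_eq_mul_inv]; ring
    rw [e]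
    exact ((I_p (p := p)).mul hc.2.2).mulR u'

/-- the value of the sum modulo `p` -/
theorem S2_mod (h3 : 3 < p) {K : ℕ} (hK : p = 3 * K + 1) (hE : Even K) :
    S2 K ∈ Zp p ∧ EQ p 2 (p * S2 K) (-(2 ^ (p - 1) - 1) / 3) := by
  have hK0 : 0 < K := by omega
  have hJ := J_gK K
  rw [J_eq (N := 3 * K) (by have := g_deg hK0; omega)] at hJ
  have hu : ∀ i ∈ range (3 * K), ((i : ℚ) + 1)⁻¹ ∈ Zp p := by
    intro i hi
    have hi' := mem_range.1 hi
    have u := (U_nat (p := p) (k := i + 1) (by omega) (by omega)).2.2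
    push_cast at u
    exact u
  have mJ : ∑ i ∈ range (3 * K), (gK K).coeff i / ((i : ℚ) + 1) ∈ Zp p := by
    refine sum_mem fun i hi => ?_
    rw [div_eq_mul_inv]
    exact mul_mem (g_mem h3 hK0 i) (hu i hi)
  have u3 : U p (3 : ℚ) := by exact_mod_cast U_nat (p := p) (k := 3) (by norm_num) (by omega)
  have u2 : U p (2 : ℚ) := by exact_mod_cast U_nat (p := p) (k := 2) (by norm_num) (by omega)
  obtain ⟨I0, hI0⟩ : ∃ z, z = ∑ i ∈ range (3 * K), (gK K).coeff i / ((i : ℚ) + 1) := ⟨_, rfl⟩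
  rw [← hI0] at hJ mJ
  have hS : S2 K = -(3⁻¹ * I0) := by rw [hJ]; ring
  have mS : S2 K ∈ Zp p := by rw [hS]; exact neg_mem (mul_mem u3.2.2 mJ)
  -- the reflected sum
  obtain ⟨I1, hI1⟩ : ∃ z, z = ∑ i ∈ range (3 * K), (gK K).coeff (3 * K - 1 - i) / ((i : ℚ) + 1) := ⟨_, rfl⟩
  have h4 : I0 - I1 = ∑ i ∈ range (3 * K), (-1) ^ i / ((i : ℚ) + 1) := by
    rw [hI0, hI1, ← sum_sub_distrib]
    refine sum_congr rfl fun i hi => ?_
    rw [← sub_div, g_symm hK0 hE i (mem_range.1 hi)]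
  have h5 : I p 1 (I0 + I1) := by
    have e1 : I1 = ∑ i ∈ range (3 * K), (gK K).coeff i / ((3 * K - 1 - i : ℕ) + 1 : ℚ) := by
      rw [hI1, ← sum_range_reflect]
      refine sum_congr rfl fun i hi => ?_
      have hi' := mem_range.1 hi
      rw [show 3 * K - 1 - (3 * K - 1 - i) = i by omega]
    rw [e1, hI0, ← sum_add_distrib]
    refine I.sum fun i hi => ?_
    have hi' := mem_range.1 hi
    have u := hu i hi
    have u' := hu (3 * K - 1 - i) (mem_range.2 (by omega))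
    have hpq : ((i : ℚ) + 1) + (((3 * K - 1 - i : ℕ) : ℚ) + 1) = p := by
      have : i + 1 + ((3 * K - 1 - i) + 1) = p := by omega
      exact_mod_cast this
    have n1 : ((i : ℚ) + 1) ≠ 0 := by positivity
    have n2 : (((3 * K - 1 - i : ℕ) : ℚ) + 1) ≠ 0 := by positivity
    have e2 : (gK K).coeff i / ((i : ℚ) + 1) + (gK K).coeff i / (((3 * K - 1 - i : ℕ) : ℚ) + 1) =
        p * ((gK K).coeff i * (((i : ℚ) + 1)⁻¹ * (((3 * K - 1 - i : ℕ) : ℚ) + 1)⁻¹)) := by
      rw [← hpq]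
      field_simp
      ring
    rw [e2]
    exact I_p.mulR (mul_mem (g_mem h3 hK0 i) (mul_mem u u'))
  have h6 := alt_sum (p := p) h3 (q := 3 * K) hK
  rw [← h4] at h6
  refine ⟨mS, mul_mem p_mem mS, ?_, ?_⟩
  · rw [div_eq_mul_inv]
    refine mul_mem (neg_mem (sub_mem (pow_mem ?_ _) (one_mem _))) u3.2.2
    exact u2.2.1
  · refine (u2.mul u3).cancel ?_
    have e : 2 * 3 * (p * S2 K - -(2 ^ (p - 1) - 1) / 3) = -(p * (I0 - I1) - (2 ^ p - 2)) - p * (I0 + I1) := by
      rw [hS]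
      have : (2 : ℚ) ^ p = 2 * 2 ^ (p - 1) := by
        rw [← pow_succ']; congr 1; omega
      rw [this]
      ring
    rw [e]
    exact h6.2.2.neg.sub ((I_p (p := p)).mul h5)

end Pool.Agent.K3h4.B6
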