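import Mathlib
import Pool.Agent.K3h4.B6.Fermat
import Pool.Agent.K3h4.H48.Val2
import Pool.Agent.R488.Tri.ModA

set_option autoImplicit false

/-!
The two sums modulo `p^2`.
-/

namespace Pool.Agent.K3h4.B6

open Finset PowerSeries Pool.Agent.R439.PL Pool.Agent.R439.PL.S4 Pool.Agent.R488.Cub

theorem R1_eq : R1 = RR 1 (-12) (-6) := by
  rw [R1, RR]
  have h1 : PowerSeries.C (((1 : ℤ) : ℚ)) = (1 : ℚ⟦X⟧) := by simp
  have h2 : PowerSeries.C (((-12 : ℤ) : ℚ)) = (-12 : ℚ⟦X⟧) := by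
    push_cast; rw [map_neg]; exact congrArg Neg.neg (C_ofN 12)
  have h3 : PowerSeries.C (((-6 : ℤ) : ℚ)) = (-6 : ℚ⟦X⟧) := by
    push_cast; rw [map_neg]; exact congrArg Neg.neg (C_ofN 6)
  have h4 : PowerSeries.C (3 : ℚ) = (3 : ℚ⟦X⟧) := C_ofN 3
  rw [h1, h2, h3, h4]
  ring

theorem R2_eq : R2 = RR (-2) 24 12 := by
  rw [R2, RR]
  have h1 : PowerSeries.C (((-2 : ℤ) : ℚ)) = (-2 : ℚ⟦X⟧) := by
    push_cast; rw [map_neg]; exact congrArg Neg.neg (C_ofN 2)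
  have h2 : PowerSeries.C (((24 : ℤ) : ℚ)) = (24 : ℚ⟦X⟧) := by push_cast; exact C_ofN 24
  have h3 : PowerSeries.C (((12 : ℤ) : ℚ)) = (12 : ℚ⟦X⟧) := by push_cast; exact C_ofN 12
  have h4 : PowerSeries.C (3 : ℚ) = (3 : ℚ⟦X⟧) := C_ofN 3
  rw [h1, h2, h3, h4]
  ring

theorem V1_zero : constantCoeff V1 = 2 := by
  rw [V1, map_mul, map_add, map_add, map_mul, constantCoeff_y, constantCoeff_g2]
  simp [map_ofNat]
  norm_num

theorem V2_zero : constantCoeff V2 = -2 := by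
  rw [V2, map_mul, map_add, map_mul, map_mul, constantCoeff_y, constantCoeff_g8]
  simp [map_ofNat]
  norm_num

/-- normalized form -/
theorem A_norm {V : ℚ⟦X⟧} {b c a1 b1 c1 : ℤ} {e : ℚ} (he : e * e = 1)
    (hA : ∀ m, (((GP b c (m + 1)).coeff m : ℤ) : ℚ) = e / 2 * coeff m (sS * V ^ (m + 1)))
    (hV : X * D V = V * (1 - RR a1 b1 c1 * sS)) (h0 : constantCoeff V = 2 * e) :
    ∃ U : ℚ⟦X⟧, X * D U = U * (1 - RR a1 b1 c1 * sS) ∧ constantCoeff U = 1 ∧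
      ∀ n : ℕ, (((GP b c (2 * n + 1)).coeff (2 * n) : ℤ) : ℚ) = 4 ^ n * coeff (2 * n) (sS * U ^ (2 * n + 1)) := by
  refine ⟨PowerSeries.C (e / 2) * V, ?_, ?_, fun n => ?_⟩
  · rw [D_mul, D_C]
    linear_combination PowerSeries.C (e / 2) * hV
  · rw [map_mul, h0, constantCoeff_C]
    linear_combination he
  · rw [hA]
    have h1 : sS * (PowerSeries.C (e / 2) * V) ^ (2 * n + 1) =
        PowerSeries.C ((e / 2) ^ (2 * n + 1)) * (sS * V ^ (2 * n + 1)) := by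
      rw [map_pow]; ring
    have h2 : (4 : ℚ) ^ n * (e / 2) ^ (2 * n + 1) = e / 2 := by
      rw [pow_succ, pow_mul, ← mul_assoc, ← mul_pow]
      have : (4 : ℚ) * (e / 2) ^ 2 = 1 := by linear_combination he
      rw [this, one_pow, one_mul]
    rw [h1, coeff_C_mul, ← mul_assoc, h2]

theorem norm1 : ∃ U : ℚ⟦X⟧, X * D U = U * (1 - RR 1 (-12) (-6) * sS) ∧ constantCoeff U = 1 ∧
    ∀ n : ℕ, (((GP 2 3 (2 * n + 1)).coeff (2 * n) : ℤ) : ℚ) = 4 ^ n * coeff (2 * n) (sS * U ^ (2 * n + 1)) :=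
  A_norm (V := V1) (e := 1) (by norm_num) (fun m => A1 m) (by rw [← R1_eq]; exact V1_ode) (by rw [V1_zero]; norm_num)

theorem norm2 : ∃ U : ℚ⟦X⟧, X * D U = U * (1 - RR (-2) 24 12 * sS) ∧ constantCoeff U = 1 ∧
    ∀ n : ℕ, (((GP 4 (-3) (2 * n + 1)).coeff (2 * n) : ℤ) : ℚ) = 4 ^ n * coeff (2 * n) (sS * U ^ (2 * n + 1)) :=
  A_norm (V := V2) (e := -1) (by norm_num) (fun m => A2 m) (by rw [← R2_eq]; exact V2_ode) (by rw [V2_zero]; norm_num)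

variable {p : ℕ} [hp : Fact p.Prime]

/-- the sum of the problem, up to `N` -/
def SS (b c : ℤ) (N : ℕ) : ℚ := ∑ k ∈ range N, ((2 * k).choose k : ℚ) * (T b c (2 * k) : ℚ) / 16 ^ k

theorem U16 (h3 : 3 < p) : U p (16 : ℚ) := by
  have := (U_nat (p := p) (k := 2) (by norm_num) (by omega)).pow 4
  norm_num at this
  exact this

theorem SS_eq (h3 : 3 < p) {n : ℕ} (hn : p = 2 * n + 1) (b c : ℤ) :
    EQ p 2 (SS b c (n + 1)) ((-1) ^ n * (((GP b c (2 * n + 1)).coeff (2 * n) : ℤ) : ℚ)) := by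
  rw [GP_coeff, SS]
  push_cast
  rw [mul_sum]
  refine EQ.sum fun k hk => ?_
  have hk' : k ≤ n := by have := mem_range.1 hk; omega
  have h := (Pool.Agent.R488.Tri.halfc (p := p) hn hk').mul
    (EQ.refl (k := 2) (mul_mem (int_mem (p := p) (T b c (2 * k))) (((U16 (p := p) h3).pow k).2.2)))
  have e1 : ((2 * k).choose k : ℚ) * ((T b c (2 * k) : ℚ) * (16 ^ k)⁻¹) =
      ((2 * k).choose k : ℚ) * (T b c (2 * k) : ℚ) / 16 ^ k := by rw [div_eq_mul_inv]; ring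
  have e2 : (-16 : ℚ) ^ k * ((n + k).choose (2 * k) : ℚ) * ((T b c (2 * k) : ℚ) * (16 ^ k)⁻¹) =
      (-1) ^ n * ((-1) ^ (n - k) * ((n + k).choose (2 * k) : ℚ) * (T b c (2 * k) : ℚ)) := by
    have h16 : (16 : ℚ) ^ k ≠ 0 := by positivity
    have hs : ((-1 : ℚ)) ^ n * (-1) ^ (n - k) = (-1) ^ k := by
      obtain ⟨i, hi⟩ : ∃ i, n = k + i := ⟨n - k, by omega⟩
      rw [hi, show k + i - k = i by omega, pow_add, mul_assoc, ← mul_pow]
      norm_num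
    rw [show (-16 : ℚ) = (-1) * 16 by norm_num, mul_pow, ← hs]
    field_simp
  rw [e1, e2] at h
  exact h

/-- the case `p = 1` modulo `3` -/
theorem A_one (h3 : 3 < p) {j : ℕ} (hj : p = 6 * j + 1) {b c a1 b1 c1 : ℤ}
    (hN : ∃ U : ℚ⟦X⟧, X * D U = U * (1 - RR a1 b1 c1 * sS) ∧ constantCoeff U = 1 ∧
    ∀ n : ℕ, (((GP b c (2 * n + 1)).coeff (2 * n) : ℤ) : ℚ) = 4 ^ n * coeff (2 * n) (sS * U ^ (2 * n + 1))) :
    EQ p 2 (((GP b c (2 * (3 * j) + 1)).coeff (2 * (3 * j)) : ℤ) : ℚ)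
      (((4 * j).choose (2 * j) : ℚ) * ((16 ^ j)⁻¹ * (1 + 2 / 3 * (64 ^ j - 1)))) := by
  obtain ⟨V, hV, h0, hA⟩ := hN
  rw [hA (3 * j)]
  have hK : p = 3 * (2 * j) + 1 := by omega
  have h1 := coeff_one_mod (p := p) h3 hK hV h0
  rw [show p - 1 = 2 * (3 * j) by omega] at h1
  have hp' : sS * V ^ p = sS * V ^ (2 * (3 * j) + 1) := by
    congr 2; omega
  rw [hp'] at h1
  have m4 : (4 : ℚ) ^ (3 * j) ∈ Zp p := pow_mem (U4' h3).2.1 _
  have h2 := (EQ.refl (k := 2) m4).mul h1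
  obtain ⟨a, ha⟩ : ∃ a : ℚ, a = 64 ^ j - 1 := ⟨_, rfl⟩
  have h64 : (4 : ℚ) ^ (3 * j) = 1 + a := by rw [ha, pow_mul]; norm_num
  obtain ⟨mS, hS⟩ := S2_mod (p := p) h3 hK (even_two_mul j)
  have e64 : (2 : ℚ) ^ (p - 1) - 1 = a := by
    rw [ha, show p - 1 = 6 * j by omega, pow_mul]; norm_num
  rw [e64] at hS
  have u3 : U p (3 : ℚ) := by exact_mod_cast U_nat (p := p) (k := 3) (by norm_num) (by omega)
  have hH := H42 (p := p) hj
  have m23 : (-(2 / 3) : ℚ) ∈ Zp p := by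
    have : (-(2 / 3) : ℚ) = -(((2 : ℕ) : ℚ) * 3⁻¹) := by norm_num
    rw [this]; exact neg_mem (mul_mem (nat_mem _) u3.2.2)
  have Ia : I p 1 a := by
    have h5 : I p 1 (p * S2 (2 * j)) := (I_p (p := p)).mulR mS
    have e : a = -(3 * (p * S2 (2 * j))) + 3 * (p * S2 (2 * j) - -a / 3) := by ring
    rw [e]
    exact (h5.mulL u3.2.1).neg.add ((hS.2.2.mono (by norm_num)).mulL u3.2.1)
  rw [W_eq] at h2
  -- compare
  have hcc : cc (2 * j) = ((4 * j).choose (2 * j) : ℚ) * (16 ^ j)⁻¹ := by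
    rw [cc_choose, show 2 * (2 * j) = 4 * j by ring, pow_mul, show ((-1 / 4 : ℚ) ^ 2) = 16⁻¹ by norm_num, inv_pow]
    ring
  rw [← mul_assoc (((4 * j).choose (2 * j) : ℕ) : ℚ), ← hcc, ← ha]
  have mc := cc_mem (p := p) h3 (2 * j)
  have ma := Ia.mem
  have m1 : (1 : ℚ) + 2 / 3 * a ∈ Zp p := by
    have : (1 : ℚ) + 2 / 3 * a = 1 - (-(2 / 3)) * a := by ring
    rw [this]; exact sub_mem (one_mem _) (mul_mem m23 ma)
  refine h2.trans ⟨h2.2.1, mul_mem mc m1, ?_⟩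
  have e : (4 : ℚ) ^ (3 * j) * (cc (2 * j) + p * (cc (2 * j) * (-(2 / 3) * (H (2 * (2 * j)) - H (2 * j)) + S2 (2 * j)))) -
      cc (2 * j) * (1 + 2 / 3 * a) =
      (1 + a) * cc (2 * j) * (-(2 / 3)) * (p * (H (4 * j) - H (2 * j))) +
      (1 + a) * cc (2 * j) * (p * S2 (2 * j) - -a / 3) - (a * a) * (cc (2 * j) * 3⁻¹) := by
    rw [h64, show 2 * (2 * j) = 4 * j by ring]
    ring
  rw [e]
  have m1a : (1 + a) ∈ Zp p := add_mem (one_mem _) ma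
  refine (((I_p (p := p)).mul hH).mulL (mul_mem (mul_mem m1a mc) m23)).add
    (hS.2.2.mulL (mul_mem m1a mc)) |>.sub ((Ia.mul Ia).mulR (mul_mem mc u3.2.2))

/-- the case `p = 2` modulo `3` -/
theorem A_two (h3 : 3 < p) {n : ℕ} (hn : p = 2 * n + 1) (h : p % 3 = 2) {b c a1 b1 c1 : ℤ}
    (hN : ∃ U : ℚ⟦X⟧, X * D U = U * (1 - RR a1 b1 c1 * sS) ∧ constantCoeff U = 1 ∧
    ∀ n : ℕ, (((GP b c (2 * n + 1)).coeff (2 * n) : ℤ) : ℚ) = 4 ^ n * coeff (2 * n) (sS * U ^ (2 * n + 1))) :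
    I p 1 (((GP b c (2 * n + 1)).coeff (2 * n) : ℤ) : ℚ) := by
  obtain ⟨V, hV, h0, hA⟩ := hN
  rw [hA n]
  have h1 := coeff_two_mod (p := p) h3 h hV h0
  rw [show p - 1 = 2 * n by omega] at h1
  have hp' : sS * V ^ p = sS * V ^ (2 * n + 1) := by
    congr 2
  rw [hp'] at h1
  exact h1.mulL (pow_mem (U4' h3).2.1 _)

theorem SS_one (h3 : 3 < p) {n : ℕ} (hn : p = 2 * n + 1) (h1 : p % 3 = 1) {b c a1 b1 c1 : ℤ}
    (hN : ∃ U : ℚ⟦X⟧, X * D U = U * (1 - RR a1 b1 c1 * sS) ∧ constantCoeff U = 1 ∧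
    ∀ n : ℕ, (((GP b c (2 * n + 1)).coeff (2 * n) : ℤ) : ℚ) = 4 ^ n * coeff (2 * n) (sS * U ^ (2 * n + 1)))
    {x y : ℤ} (h : (p : ℤ) = x ^ 2 + 3 * y ^ 2) (hx : x % 3 = 1) :
    EQ p 2 (SS b c (n + 1)) ((-1) ^ n * (2 * x - p / (2 * x))) := by
  obtain ⟨j, hj⟩ : ∃ j, p = 6 * j + 1 := ⟨p / 6, by omega⟩
  have hnj : n = 3 * j := by omega
  have e := SS_eq (p := p) h3 hn b c
  have a := A_one (p := p) h3 hj hN
  obtain ⟨x', y', h1', h2', h3', h4'⟩ := Pool.Agent.K3h4.H48.rep (p := p) hj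
  have hxx : x' = x := Pool.Agent.K3h4.H48.rep_uniq (p := p) h1' h h2' hx
  subst hxx
  rw [hnj] at e ⊢
  exact e.trans ((EQ.refl (pow_mem (neg_mem (one_mem _)) _)).mul (a.trans h4'))

theorem SS_two (h3 : 3 < p) {n : ℕ} (hn : p = 2 * n + 1) (h1 : p % 3 = 2) {b c a1 b1 c1 : ℤ}
    (hN : ∃ U : ℚ⟦X⟧, X * D U = U * (1 - RR a1 b1 c1 * sS) ∧ constantCoeff U = 1 ∧
    ∀ n : ℕ, (((GP b c (2 * n + 1)).coeff (2 * n) : ℤ) : ℚ) = 4 ^ n * coeff (2 * n) (sS * U ^ (2 * n + 1))) :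
    EQ p 1 (SS b c (n + 1)) 0 := by
  have e := (SS_eq (p := p) h3 hn b c).mono (l := 1) (by norm_num)
  have a := A_two (p := p) h3 hn h1 hN
  exact e.trans (EQ.of_I (a.mulL (pow_mem (neg_mem (one_mem _)) _)))

/-- the terms beyond `(p-1)/2` are divisible by `p` -/
theorem SS_tail (h3 : 3 < p) {n : ℕ} (hn : p = 2 * n + 1) (b c : ℤ) : EQ p 1 (SS b c p) (SS b c (n + 1)) := by
  have mem : ∀ N, SS b c N ∈ Zp p := fun N => by
    rw [SS]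
    refine sum_mem fun k _ => ?_
    rw [div_eq_mul_inv]
    exact mul_mem (mul_mem (nat_mem _) (int_mem _)) ((U16 (p := p) h3).pow k).2.2
  refine ⟨mem _, mem _, ?_⟩
  have e : SS b c p - SS b c (n + 1) = ∑ i ∈ range n, ((2 * (n + 1 + i)).choose (n + 1 + i) : ℚ) *
      (T b c (2 * (n + 1 + i)) : ℚ) / 16 ^ (n + 1 + i) := by
    have : p = n + 1 + n := by omega
    rw [SS, SS, this, sum_range_add]
    ring
  rw [e]
  refine I.sum fun i hi => ?_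
  have hi' := mem_range.1 hi
  have hd : p ∣ (2 * (n + 1 + i)).choose (n + 1 + i) :=
    hp.out.dvd_choose (by omega) (by omega) (by omega)
  obtain ⟨t, ht⟩ := hd
  rw [ht, div_eq_mul_inv]
  push_cast
  exact ((I_p.mulR (nat_mem t)).mulR (int_mem _)).mulR ((U16 (p := p) h3).pow _).2.2

end Pool.Agent.K3h4.B6
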